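import Pool.Agent.Helper86.QA.St4

/-!
# Project QD, part A, module HCC: conical limit points imply convex cocompactness
-/

set_option autoImplicit false

open MeasureTheory Matrix Set Topology Filter
open scoped ENNReal ComplexConjugate ComplexOrder

namespace Pool.Agent.Helper78.QA

open Pool.Agent.Helper86.QA Pool.Agent.Helper20
open Pool.Agent.Helper35.PM (hs IsDiscrete ConvexCocompact limitSet density)
open Pool.Agent.Helper20.QD (sph act fr orb)

/-- positive semidefinite matrices of trace one -/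
private def PS : Set Mat := {P | P.PosSemidef ∧ P.trace = 1}

private theorem par (P : Mat) (hP : P ∈ PS) : ∃ (p : ℝ) (u : ℂ), P 0 0 = (p : ℂ) ∧
    P 1 1 = ((1 - p : ℝ) : ℂ) ∧ P 0 1 = u ∧ P 1 0 = conj u := by
  obtain ⟨h1, h2⟩ := hP
  have hH := h1.isHermitian
  have h00 : conj (P 0 0) = P 0 0 := hH.apply 0 0
  have h10 : conj (P 0 1) = P 1 0 := hH.apply 1 0
  have hp : P 0 0 = (((P 0 0).re : ℝ) : ℂ) := by
    rw [Complex.conj_eq_iff_re] at h00
    exact h00.symm
  refine ⟨(P 0 0).re, P 0 1, hp, ?_, rfl, h10.symm⟩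
  rw [Matrix.trace_fin_two] at h2
  push_cast
  rw [← hp]
  linear_combination h2

private theorem detR (P : Mat) (p : ℝ) (u : ℂ) (h0 : P 0 0 = (p : ℂ))
    (h1 : P 1 1 = ((1 - p : ℝ) : ℂ)) (h2 : P 0 1 = u) (h3 : P 1 0 = conj u) :
    P.det = ((p * (1 - p) - (u.re ^ 2 + u.im ^ 2) : ℝ) : ℂ) := by
  rw [Matrix.det_fin_two, h0, h1, h2, h3, Complex.mul_conj, Complex.normSq_apply]
  push_cast
  ring

private theorem frR (P Q : Mat) (p q : ℝ) (u v : ℂ) (h0 : P 0 0 = (p : ℂ))
    (h1 : P 1 1 = ((1 - p : ℝ) : ℂ)) (h2 : P 0 1 = u) (h3 : P 1 0 = conj u)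
    (k0 : Q 0 0 = (q : ℂ)) (k1 : Q 1 1 = ((1 - q : ℝ) : ℂ)) (k2 : Q 0 1 = v)
    (k3 : Q 1 0 = conj v) :
    fr P Q = 2 * (p - q) ^ 2 + 2 * ((u.re - v.re) ^ 2 + (u.im - v.im) ^ 2) := by
  unfold fr hs
  rw [Fin.sum_univ_two, Fin.sum_univ_two, Fin.sum_univ_two]
  simp only [Matrix.sub_apply]
  rw [h0, h1, h2, h3, k0, k1, k2, k3, ← map_sub, Complex.norm_conj, Complex.sq_norm,
    Complex.sq_norm, Complex.sq_norm]
  simp only [Complex.normSq_apply, Complex.sub_re, Complex.sub_im, Complex.ofReal_re,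
    Complex.ofReal_im]
  ring

private theorem trR (P Q : Mat) (p q : ℝ) (u v : ℂ) (h0 : P 0 0 = (p : ℂ))
    (h1 : P 1 1 = ((1 - p : ℝ) : ℂ)) (h2 : P 0 1 = u) (h3 : P 1 0 = conj u)
    (k0 : Q 0 0 = (q : ℂ)) (k1 : Q 1 1 = ((1 - q : ℝ) : ℂ)) (k2 : Q 0 1 = v)
    (k3 : Q 1 0 = conj v) :
    ((P * Q).trace).re = p * q + (1 - p) * (1 - q) + 2 * (u.re * v.re + u.im * v.im) := by
  rw [Matrix.trace_fin_two, Matrix.mul_apply, Matrix.mul_apply, Fin.sum_univ_two,
    Fin.sum_univ_two, h0, h1, h2, h3, k0, k1, k2, k3]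
  simp only [Complex.add_re, Complex.mul_re, Complex.ofReal_re, Complex.ofReal_im,
    Complex.conj_re, Complex.conj_im]
  ring

private theorem det_nn (P : Mat) (hP : P ∈ PS) : 0 ≤ P.det.re := by
  have h := hP.1.det_nonneg
  exact (Complex.nonneg_iff.mp h).1

private theorem det_comb (P Q : Mat) (hP : P ∈ PS) (hQ : Q ∈ PS) (a b : ℝ) (hab : a + b = 1) :
    (a • P + b • Q).det.re = a * P.det.re + b * Q.det.re + a * b * fr P Q / 2 := by
  obtain ⟨p, u, h0, h1, h2, h3⟩ := par P hP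
  obtain ⟨q, v, k0, k1, k2, k3⟩ := par Q hQ
  rw [frR P Q p q u v h0 h1 h2 h3 k0 k1 k2 k3, detR P p u h0 h1 h2 h3, detR Q q v k0 k1 k2 k3]
  have e0 : (a • P + b • Q) 0 0 = ((a * p + b * q : ℝ) : ℂ) := by
    simp only [Matrix.add_apply, Matrix.smul_apply, Complex.real_smul, h0, k0]
    push_cast
    ring
  have e1 : (a • P + b • Q) 1 1 = ((1 - (a * p + b * q) : ℝ) : ℂ) := by
    simp only [Matrix.add_apply, Matrix.smul_apply, Complex.real_smul, h1, k1]
    push_cast
    have hab' : (a : ℂ) + (b : ℂ) = 1 := by exact_mod_cast hab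
    linear_combination hab'
  have e2 : (a • P + b • Q) 0 1 = (a : ℂ) * u + (b : ℂ) * v := by
    simp only [Matrix.add_apply, Matrix.smul_apply, Complex.real_smul, h2, k2]
  have e3 : (a • P + b • Q) 1 0 = conj ((a : ℂ) * u + (b : ℂ) * v) := by
    simp only [Matrix.add_apply, Matrix.smul_apply, Complex.real_smul, h3, k3, map_add, map_mul,
      Complex.conj_ofReal]
  rw [detR _ _ _ e0 e1 e2 e3]
  simp only [Complex.ofReal_re, Complex.add_re, Complex.add_im, Complex.mul_re, Complex.mul_im,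
    Complex.ofReal_im]
  have hb : b = 1 - a := by linarith
  subst hb
  ring

private theorem fr_tr (P Q : Mat) (hP : P ∈ PS) (hQ : Q ∈ PS) :
    fr P Q = 2 - 2 * P.det.re - 2 * Q.det.re - 2 * ((P * Q).trace).re := by
  obtain ⟨p, u, h0, h1, h2, h3⟩ := par P hP
  obtain ⟨q, v, k0, k1, k2, k3⟩ := par Q hQ
  rw [frR P Q p q u v h0 h1 h2 h3 k0 k1 k2 k3, detR P p u h0 h1 h2 h3, detR Q q v k0 k1 k2 k3,
    trR P Q p q u v h0 h1 h2 h3 k0 k1 k2 k3]
  simp only [Complex.ofReal_re]
  ring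

private theorem ps_convex : Convex ℝ PS := by
  intro P hP Q hQ a b ha hb hab
  refine ⟨?_, ?_⟩
  · exact (hP.1.smul ha).add (hQ.1.smul hb)
  · rw [Matrix.trace_add, Matrix.trace_smul, Matrix.trace_smul, hP.2, hQ.2, Complex.real_smul,
      Complex.real_smul, mul_one, mul_one]
    exact_mod_cast hab

private theorem ps_closed : IsClosed PS := by
  have hnn : IsClosed {z : ℂ | 0 ≤ z} := by
    have e : {z : ℂ | 0 ≤ z} = {z : ℂ | 0 ≤ z.re} ∩ {z : ℂ | 0 = z.im} := by
      ext z
      exact Complex.nonneg_iff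
    rw [e]
    exact (isClosed_le continuous_const Complex.continuous_re).inter
      (isClosed_eq continuous_const Complex.continuous_im)
  have e : PS = ({P : Mat | Pᴴ = P} ∩ ⋂ x : Fin 2 → ℂ, {P : Mat | 0 ≤ star x ⬝ᵥ (P *ᵥ x)}) ∩
      {P : Mat | P.trace = 1} := by
    ext P
    simp only [PS, mem_inter_iff, mem_iInter, Set.mem_ofPred_eq]
    rw [Matrix.posSemidef_iff_dotProduct_mulVec]
    rfl
  rw [e]
  refine IsClosed.inter (IsClosed.inter ?_ ?_) ?_
  · exact isClosed_eq (Continuous.matrix_conjTranspose continuous_id) continuous_id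
  · refine isClosed_iInter fun x => ?_
    exact hnn.preimage (Continuous.dotProduct continuous_const
      (Continuous.matrix_mulVec continuous_id continuous_const))
  · exact isClosed_eq (Continuous.matrix_trace continuous_id) continuous_const

private theorem ps_compact : IsCompact PS := by
  have hK : IsCompact (Set.pi univ fun _ : Fin 2 => Set.pi univ fun _ : Fin 2 =>
      Metric.closedBall (0 : ℂ) 1) :=
    isCompact_univ_pi fun _ => isCompact_univ_pi fun _ => isCompact_closedBall 0 1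
  refine IsCompact.of_isClosed_subset hK ps_closed ?_
  intro P hP
  obtain ⟨p, u, h0, h1, h2, h3⟩ := par P hP
  have hd := det_nn P hP
  rw [detR P p u h0 h1 h2 h3, Complex.ofReal_re] at hd
  have hp0 : 0 ≤ p := by nlinarith [sq_nonneg u.re, sq_nonneg u.im, sq_nonneg p]
  have hp1 : p ≤ 1 := by nlinarith [sq_nonneg u.re, sq_nonneg u.im, sq_nonneg p]
  have hu : ‖u‖ ≤ 1 := by
    have : ‖u‖ ^ 2 ≤ 1 := by
      rw [Complex.sq_norm, Complex.normSq_apply]
      nlinarith [sq_nonneg p, sq_nonneg (1 - p)]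
    nlinarith [norm_nonneg u]
  intro i _ j _
  rw [mem_closedBall_zero_iff]
  fin_cases i <;> fin_cases j
  · change ‖P 0 0‖ ≤ 1
    rw [h0, Complex.norm_real, Real.norm_eq_abs, abs_of_nonneg hp0]
    exact hp1
  · change ‖P 0 1‖ ≤ 1
    rw [h2]
    exact hu
  · change ‖P 1 0‖ ≤ 1
    rw [h3, Complex.norm_conj]
    exact hu
  · change ‖P 1 1‖ ≤ 1
    rw [h1, Complex.norm_real, Real.norm_eq_abs, abs_of_nonneg (by linarith)]
    linarith

/-- boundary points of the closed convex hull of a compact subset of the sphere -/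
private theorem extreme (hLFR : QD.StLFR) (L : Set Mat) (hL : L ⊆ sph) (hLc : IsCompact L)
    (P : Mat) (hP : P ∈ closure (convexHull ℝ L)) (hPS : P ∈ PS) (hd : P.det.re = 0) :
    P ∈ L := by
  have hLne : L.Nonempty := by
    have h1 : (closure (convexHull ℝ L)).Nonempty := ⟨P, hP⟩
    rw [closure_nonempty_iff, convexHull_nonempty_iff] at h1
    exact h1
  have hcont : Continuous (fun X : Mat => ((P * X).trace).re) :=
    Complex.continuous_re.comp
      (Continuous.matrix_trace (Continuous.matrix_mul continuous_const continuous_id))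
  obtain ⟨Q, hQ, hmax⟩ := hLc.exists_isMaxOn hLne hcont.continuousOn
  have hsub : closure (convexHull ℝ L) ⊆ {X : Mat | ((P * X).trace).re ≤ ((P * Q).trace).re} := by
    refine closure_minimal (convexHull_min ?_ ?_) (isClosed_le hcont continuous_const)
    · intro X hX
      exact hmax hX
    · intro X hX Y hY a b ha hb hab
      simp only [Set.mem_ofPred_eq] at hX hY ⊢
      rw [Matrix.mul_add, Matrix.mul_smul, Matrix.mul_smul, Matrix.trace_add,
        Matrix.trace_smul, Matrix.trace_smul, Complex.add_re, Complex.real_smul,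
        Complex.real_smul, Complex.re_ofReal_mul, Complex.re_ofReal_mul]
      have h1 := mul_le_mul_of_nonneg_left hX ha
      have h2 := mul_le_mul_of_nonneg_left hY hb
      have h3 : ((P * Q).trace).re = a * ((P * Q).trace).re + b * ((P * Q).trace).re := by
        rw [← add_mul, hab, one_mul]
      linarith
  have hPP : ((P * P).trace).re ≤ ((P * Q).trace).re := hsub hP
  have hQs := hL hQ
  have hQPS : Q ∈ PS := ⟨hQs.1, hQs.2.1⟩
  have e1 := fr_tr P P hPS hPS
  have e2 := fr_tr P Q hPS hQPS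
  have hPP0 : fr P P = 0 := by
    unfold fr hs
    simp
  have hQd : Q.det.re = 0 := by rw [hQs.2.2]; rfl
  obtain ⟨hnn, -, hz⟩ := hLFR.1 P Q
  have : fr P Q = 0 := by
    refine le_antisymm ?_ hnn
    linarith
  rw [hz this]
  exact hQ

private theorem tr_real (A : SL) (P : Mat) (hP : P ∈ PS) :
    ((A : Mat) * P * (A : Mat)ᴴ).trace = ((((A : Mat) * P * (A : Mat)ᴴ).trace.re : ℝ) : ℂ) := by
  have h1 : ((A : Mat) * P * (A : Mat)ᴴ).PosSemidef := hP.1.mul_mul_conjTranspose_same _
  have h2 : 0 ≤ ((A : Mat) * P * (A : Mat)ᴴ).trace := h1.trace_nonneg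
  have h3 := (Complex.nonneg_iff.mp h2).2
  exact Complex.ext (by simp) (by rw [← h3]; simp)

private theorem act_real (A : SL) (P : Mat) (hP : P ∈ PS) :
    act A P = (((A : Mat) * P * (A : Mat)ᴴ).trace.re)⁻¹ • ((A : Mat) * P * (A : Mat)ᴴ) := by
  unfold act density
  ext i j
  rw [Matrix.smul_apply, Matrix.smul_apply, Complex.real_smul, smul_eq_mul]
  conv_lhs => rw [tr_real A P hP]
  push_cast
  rfl

private theorem tr_pos (hLMX : QD.StLMX) (A : SL) (P : Mat) (hP : P ∈ PS) :
    0 < ((A : Mat) * P * (A : Mat)ᴴ).trace.re := by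
  by_cases hd : P.det = 0
  · exact (hLMX.2.2.2.2.1 A P ⟨hP.1, hP.2, hd⟩).1
  · exact (hLMX.2.2.2.2.2 A P (hP.1.posDef_iff_det_ne_zero.mpr hd) hP.2).1

private theorem act_cont (hLMX : QD.StLMX) (A : SL) : ContinuousOn (act A) PS := by
  have hc : Continuous (fun P : Mat => (A : Mat) * P * (A : Mat)ᴴ) :=
    Continuous.matrix_mul (Continuous.matrix_mul continuous_const continuous_id) continuous_const
  have ht : Continuous (fun P : Mat => ((A : Mat) * P * (A : Mat)ᴴ).trace) :=
    Continuous.matrix_trace hc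
  unfold act density
  refine ContinuousOn.smul (ContinuousOn.inv₀ ht.continuousOn ?_) hc.continuousOn
  intro P hP h0
  have := tr_pos hLMX A P hP
  rw [h0] at this
  simp at this

/-- the closed convex hull is invariant -/
private theorem hull_inv (hLMX : QD.StLMX) (L : Set Mat) (hL : L ⊆ sph) (A : SL)
    (hA : ∀ Q ∈ L, act A Q ∈ L) (P : Mat) (hP : P ∈ closure (convexHull ℝ L)) :
    act A P ∈ closure (convexHull ℝ L) := by
  set H : Set Mat := closure (convexHull ℝ L) with hH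
  have hHc : Convex ℝ H := (convex_convexHull ℝ L).closure
  have hT : IsClosed (PS ∩ (act A) ⁻¹' H) :=
    (act_cont hLMX A).preimage_isClosed_of_isClosed ps_closed isClosed_closure
  have hsub : H ⊆ PS ∩ (act A) ⁻¹' H := by
    refine closure_minimal (convexHull_min ?_ ?_) hT
    · intro Q hQ
      refine ⟨⟨(hL hQ).1, (hL hQ).2.1⟩, ?_⟩
      exact subset_closure (subset_convexHull ℝ L (hA Q hQ))
    · intro X hX Y hY a b ha hb hab
      have hXY : a • X + b • Y ∈ PS := ps_convex hX.1 hY.1 ha hb hab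
      refine ⟨hXY, ?_⟩
      change act A (a • X + b • Y) ∈ H
      have pX := tr_pos hLMX A X hX.1
      have pY := tr_pos hLMX A Y hY.1
      have pXY := tr_pos hLMX A _ hXY
      have hlin : (A : Mat) * (a • X + b • Y) * (A : Mat)ᴴ =
          a • ((A : Mat) * X * (A : Mat)ᴴ) + b • ((A : Mat) * Y * (A : Mat)ᴴ) := by
        rw [Matrix.mul_add, Matrix.mul_smul, Matrix.mul_smul, Matrix.add_mul, Matrix.smul_mul,
          Matrix.smul_mul]
      have htr : ((A : Mat) * (a • X + b • Y) * (A : Mat)ᴴ).trace.re =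
          a * ((A : Mat) * X * (A : Mat)ᴴ).trace.re +
          b * ((A : Mat) * Y * (A : Mat)ᴴ).trace.re := by
        rw [hlin, Matrix.trace_add, Matrix.trace_smul, Matrix.trace_smul, Complex.add_re,
          Complex.real_smul, Complex.real_smul, Complex.re_ofReal_mul, Complex.re_ofReal_mul]
      rw [htr] at pXY
      have hmX : act A X ∈ H := hX.2
      have hmY : act A Y ∈ H := hY.2
      set s := ((A : Mat) * X * (A : Mat)ᴴ).trace.re with hs1
      set t := ((A : Mat) * Y * (A : Mat)ᴴ).trace.re with ht1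
      have e : act A (a • X + b • Y) =
          (a * s / (a * s + b * t)) • act A X + (b * t / (a * s + b * t)) • act A Y := by
        rw [act_real A _ hXY, act_real A X hX.1, act_real A Y hY.1, htr, hlin, ← hs1, ← ht1,
          smul_add, smul_smul, smul_smul, smul_smul, smul_smul]
        congr 2
        · field_simp
        · field_simp
      rw [e]
      refine hHc hmX hmY (by positivity) (by positivity) ?_
      field_simp
  exact (hsub hP).2

theorem hHCC (hLFR : QD.StLFR) (hLQC : QD.StLQC) (hLMX : QD.StLMX) (hLLS : QD.StLLS)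
    (hDRC : StDRC) : StHCC := by
  intro Γ _ ρ hdis hcon hQR
  obtain ⟨hLcl, hLs, -, hLinv, -⟩ := hLLS Γ ρ hdis
  obtain ⟨hDc, hD1, hD2⟩ := hDRC Γ ρ hdis
  have hLPS : limitSet ρ ⊆ PS := fun Q hQ => ⟨(hLs hQ).1, (hLs hQ).2.1⟩
  have hLc : IsCompact (limitSet ρ) := ps_compact.of_isClosed_subset hLcl hLPS
  set H : Set Mat := closure (convexHull ℝ (limitSet ρ)) with hH
  have hHPS : H ⊆ PS := closure_minimal (convexHull_min hLPS ps_convex) ps_closed
  have hHcpt : IsCompact H := ps_compact.of_isClosed_subset isClosed_closure hHPS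
  have hHconv : Convex ℝ H := (convex_convexHull ℝ _).closure
  have hinv : ∀ γ : Γ, ∀ P ∈ H, act (ρ γ) P ∈ H := fun γ P hP =>
    hull_inv hLMX (limitSet ρ) hLs (ρ γ) (hLinv γ) P hP
  refine ⟨{P | P ∈ H ∧ P.PosDef}, H ∩ Dir ρ, ?_, ?_, ?_, ?_, ?_, ?_, ?_⟩
  · obtain ⟨Q, hQ, R, hR, hne⟩ := hQR
    have hm : (1 / 2 : ℝ) • Q + (1 / 2 : ℝ) • R ∈ H := by
      refine hHconv (subset_closure (subset_convexHull ℝ _ hQ))
        (subset_closure (subset_convexHull ℝ _ hR)) (by norm_num) (by norm_num) (by norm_num)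
    refine ⟨_, hm, ?_⟩
    rw [(hHPS hm).1.posDef_iff_det_ne_zero]
    intro h0
    have h1 := det_comb Q R (hLPS hQ) (hLPS hR) (1 / 2) (1 / 2) (by norm_num)
    rw [h0] at h1
    have d1 := det_nn Q (hLPS hQ)
    have d2 := det_nn R (hLPS hR)
    obtain ⟨f1, -, f2⟩ := hLFR.1 Q R
    simp only [Complex.zero_re] at h1
    exact hne (f2 (by linarith))
  · intro P hP Q hQ a b ha hb hab
    refine ⟨hHconv hP.1 hQ.1 ha hb hab, ?_⟩
    have hm : a • P + b • Q ∈ H := hHconv hP.1 hQ.1 ha hb hab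
    rw [(hHPS hm).1.posDef_iff_det_ne_zero]
    intro h0
    have h1 := det_comb P Q (hHPS hP.1) (hHPS hQ.1) a b hab
    rw [h0] at h1
    have d1 : 0 < P.det.re := (Complex.pos_iff.mp hP.2.det_pos).1
    have d2 : 0 < Q.det.re := (Complex.pos_iff.mp hQ.2.det_pos).1
    obtain ⟨f1, -, -⟩ := hLFR.1 P Q
    simp only [Complex.zero_re] at h1
    have g1 : 0 ≤ a * b * fr P Q / 2 := by positivity
    have g2 : 0 ≤ a * P.det.re := by positivity
    have g3 : 0 ≤ b * Q.det.re := by positivity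
    have g4 : a * P.det.re = 0 := by linarith
    have g5 : b * Q.det.re = 0 := by linarith
    rcases mul_eq_zero.mp g4 with ha0 | hx
    · rcases mul_eq_zero.mp g5 with hb0 | hy
      · rw [ha0, hb0] at hab
        norm_num at hab
      · linarith
    · linarith
  · intro P hP
    exact ⟨hP.2, (hHPS hP.1).2⟩
  · intro γ P hP
    refine ⟨hinv γ P hP.1, ?_⟩
    exact (hLQC.2.2.2.2.2.2.2.2.2.1 (ρ γ) P hP.2 (hHPS hP.1).2).1
  · exact hHcpt.inter hDc
  · intro P hP
    refine ⟨?_, (hHPS hP.1).2⟩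
    rw [(hHPS hP.1).1.posDef_iff_det_ne_zero]
    intro h0
    have h1 : P ∈ limitSet ρ := extreme hLFR (limitSet ρ) hLs hLc P hP.1 (hHPS hP.1)
      (by rw [h0]; rfl)
    exact Set.disjoint_left.mp (hD2 hcon) hP.2 h1
  · intro P hP
    obtain ⟨γ, h1, -⟩ := hD1 P hP.2 (hHPS hP.1).2
    exact ⟨γ, hinv γ P hP.1, h1⟩

end Pool.Agent.Helper78.QA
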