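import Pool.Agent.Helper86.QA.St1

/-!
# Project QD, part A, module ACT: the action of SL(2,C) on the upper half space
-/

set_option autoImplicit false

open MeasureTheory Matrix Set Topology
open scoped ENNReal ComplexConjugate

namespace Pool.Agent.Helper78.QA

open Pool.Agent.Helper86.QA

private theorem det1 (g : SL) : g 0 0 * g 1 1 - g 0 1 * g 1 0 = 1 := by
  have h := g.det_coe
  rw [Matrix.det_fin_two] at h
  exact h

private theorem den_pos (g : SL) (x : Pt) (hx : x ∈ up) : 0 < den g x := by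
  unfold den
  have ht : 0 < x.2 := hx
  have hd := det1 g
  by_cases hc : g 1 0 = 0
  · have h11 : g 1 1 ≠ 0 := by
      intro h
      rw [hc, h] at hd
      simp at hd
    rw [hc]
    simp only [zero_mul, zero_add, norm_zero]
    have : 0 < ‖g 1 1‖ := norm_pos_iff.mpr h11
    positivity
  · have h1 : 0 < ‖g 1 0‖ := norm_pos_iff.mpr hc
    have h2 : 0 ≤ ‖g 1 0 * x.1 + g 1 1‖ ^ 2 := sq_nonneg _
    have h3 : 0 < ‖g 1 0‖ ^ 2 * x.2 ^ 2 := by positivity
    linarith

private theorem nsq (z : ℂ) : ((‖z‖ ^ 2 : ℝ) : ℂ) = z * conj z := by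
  rw [Complex.mul_conj, Complex.normSq_eq_norm_sq]

private theorem den_c (g : SL) (x : Pt) : ((den g x : ℝ) : ℂ) =
    (g 1 0 * x.1 + g 1 1) * (conj (g 1 0) * conj x.1 + conj (g 1 1)) +
      g 1 0 * conj (g 1 0) * (x.2 : ℂ) ^ 2 := by
  unfold den
  push_cast
  have h1 := nsq (g 1 0 * x.1 + g 1 1)
  have h2 := nsq (g 1 0)
  push_cast at h1 h2
  rw [h1, h2, map_add, map_mul]

private theorem xm_ga (g : SL) (x : Pt) (hx : x ∈ up) :
    Xm (ga g x) = (g : Mat) * Xm x * (g : Mat)ᴴ := by
  have ht : 0 < x.2 := hx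
  have htc : (x.2 : ℂ) ≠ 0 := by exact_mod_cast ht.ne'
  have hN : 0 < den g x := den_pos g x hx
  have hNc : ((den g x : ℝ) : ℂ) ≠ 0 := by exact_mod_cast hN.ne'
  have hd := det1 g
  have hd' : conj (g 0 0) * conj (g 1 1) - conj (g 0 1) * conj (g 1 0) = 1 := by
    have := congrArg conj hd
    simpa using this
  have hNe := den_c g x
  set z := x.1 with hzd
  set t := x.2 with htd
  set N : ℂ := ((den g x : ℝ) : ℂ) with hNdef
  set a := g 0 0 with ha
  set b := g 0 1 with hb
  set c := g 1 0 with hc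
  set d := g 1 1 with hdd
  have hw : (ga g x).1 = ((a * z + b) * (conj c * conj z + conj d) +
      a * conj c * (t : ℂ) ^ 2) / N := by
    simp only [ga, map_add, map_mul]
    rfl
  have hcN : conj N = N := by
    rw [hNdef]
    exact Complex.conj_ofReal _
  have hct : conj (t : ℂ) = (t : ℂ) := Complex.conj_ofReal _
  have hw' : conj (ga g x).1 = ((conj a * conj z + conj b) * (c * z + d) +
      conj a * c * (t : ℂ) ^ 2) / N := by
    rw [hw]
    simp only [map_div₀, map_add, map_mul, map_pow, Complex.conj_conj, hcN, hct]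
  have h2 : (((ga g x).2 : ℝ) : ℂ) = (t : ℂ) / N := by
    simp only [ga]
    push_cast
    rfl
  have hn : ((‖(ga g x).1‖ ^ 2 : ℝ) : ℂ) = (ga g x).1 * conj (ga g x).1 := nsq _
  have hz : ((‖z‖ ^ 2 : ℝ) : ℂ) = z * conj z := nsq _
  push_cast at hn hz
  unfold Xm
  push_cast
  rw [hn, hw', h2, hw, ← hzd, ← htd, hz]
  have hg : (g : Mat) = !![a, b; c, d] := by
    ext i j
    fin_cases i <;> fin_cases j <;> rfl
  rw [hg]
  have hgH : (!![a, b; c, d] : Mat)ᴴ = !![conj a, conj c; conj b, conj d] := by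
    ext i j
    fin_cases i <;> fin_cases j <;> rfl
  rw [hgH, Matrix.mul_fin_two, Matrix.mul_fin_two]
  have key : ((a * z + b) * (conj c * conj z + conj d) + a * conj c * (t : ℂ) ^ 2) *
      ((conj a * conj z + conj b) * (c * z + d) + conj a * c * (t : ℂ) ^ 2) + (t : ℂ) ^ 2 =
      N * ((a * z + b) * (conj a * conj z + conj b) + a * conj a * (t : ℂ) ^ 2) := by
    rw [hNe]
    linear_combination (-(t : ℂ) ^ 2) * (conj a * conj d - conj b * conj c) * hd -
      (t : ℂ) ^ 2 * hd'
  ext i j
  fin_cases i <;> fin_cases j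
  · simp only [Fin.zero_eta, Fin.isValue, Matrix.of_apply, Matrix.cons_val', Matrix.cons_val_zero,
      Matrix.cons_val_fin_one, Matrix.cons_val_one]
    field_simp
    linear_combination key
  · simp only [Fin.zero_eta, Fin.isValue, Fin.mk_one, Matrix.of_apply, Matrix.cons_val', Matrix.cons_val_zero,
      Matrix.cons_val_fin_one, Matrix.cons_val_one]
    field_simp
    ring
  · simp only [Fin.zero_eta, Fin.isValue, Fin.mk_one, Matrix.of_apply, Matrix.cons_val', Matrix.cons_val_zero,
      Matrix.cons_val_fin_one, Matrix.cons_val_one]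
    field_simp
    ring
  · simp only [Fin.zero_eta, Fin.isValue, Fin.mk_one, Matrix.of_apply, Matrix.cons_val', Matrix.cons_val_zero,
      Matrix.cons_val_fin_one, Matrix.cons_val_one]
    rw [hNe] at hNc ⊢
    field_simp
    ring

private theorem ga_up (g : SL) (x : Pt) (hx : x ∈ up) : ga g x ∈ up := by
  have h := den_pos g x hx
  have ht : 0 < x.2 := hx
  change 0 < x.2 / den g x
  positivity

private theorem xm_inj (x y : Pt) (hx : x ∈ up) (hy : y ∈ up) (h : Xm x = Xm y) : x = y := by
  have hx2 : 0 < x.2 := hx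
  have hy2 : 0 < y.2 := hy
  have h11 := congrFun (congrFun h 1) 1
  have h01 := congrFun (congrFun h 0) 1
  simp only [Xm, Fin.isValue, Matrix.of_apply, Matrix.cons_val', Matrix.cons_val_zero,
      Matrix.cons_val_fin_one, Matrix.cons_val_one] at h11 h01
  have h2 : 1 / x.2 = 1 / y.2 := by exact_mod_cast h11
  have h3 : x.2 = y.2 := by
    have := congrArg (fun r : ℝ => r⁻¹) h2
    simpa using this
  have h4 : x.1 = y.1 := by
    rw [h3] at h01
    have hyc : (y.2 : ℂ) ≠ 0 := by exact_mod_cast hy2.ne'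
    field_simp at h01
    exact h01
  exact Prod.ext h4 h3

theorem hACT : StACT := by
  refine ⟨fun g x hx => ⟨den_pos g x hx, ga_up g x hx, xm_ga g x hx⟩, ?_, ?_, ?_, ?_, ?_⟩
  · intro g h x hx
    have h1 := ga_up (g * h) x hx
    have h2 := ga_up h x hx
    have h3 := ga_up g (ga h x) h2
    refine xm_inj _ _ h1 h3 ?_
    rw [xm_ga (g * h) x hx, xm_ga g (ga h x) h2, xm_ga h x hx]
    rw [Matrix.SpecialLinearGroup.coe_mul, Matrix.conjTranspose_mul]
    simp only [Matrix.mul_assoc]
  · intro x hx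
    have hd : den 1 x = 1 := by
      unfold den
      simp
    unfold ga
    rw [hd]
    simp
  · intro g
    have c1 : Continuous (fun x : Pt => (g 0 0 * x.1 + g 0 1) * conj (g 1 0 * x.1 + g 1 1) +
        g 0 0 * conj (g 1 0) * (x.2 : ℂ) ^ 2) := by
      have hcc : Continuous (fun z : ℂ => conj z) := Complex.continuous_conj
      refine Continuous.add (Continuous.mul (by fun_prop) (hcc.comp (by fun_prop))) ?_
      refine Continuous.mul continuous_const (Continuous.pow ?_ 2)
      exact Complex.continuous_ofReal.comp continuous_snd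
    have c2 : Continuous (den g) := by
      unfold den
      fun_prop
    have c3 : Continuous (fun x : Pt => ((den g x : ℝ) : ℂ)) :=
      Complex.continuous_ofReal.comp c2
    constructor
    · exact (c1.measurable.div c3.measurable).prodMk (measurable_snd.div c2.measurable)
    · refine ContinuousOn.prodMk (c1.continuousOn.div c3.continuousOn ?_)
        (continuous_snd.continuousOn.div c2.continuousOn ?_)
      · intro x hx
        have := den_pos g x hx
        exact_mod_cast this.ne'
      · intro x hx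
        exact (den_pos g x hx).ne'
  · intro x hx y
    have hx2 : 0 < x.2 := hx
    have hs : 0 < Real.sqrt x.2 := Real.sqrt_pos.mpr hx2
    have hsc : ((Real.sqrt x.2 : ℝ) : ℂ) ≠ 0 := by exact_mod_cast hs.ne'
    have hxc : ((x.2 : ℝ) : ℂ) ≠ 0 := by exact_mod_cast hx2.ne'
    have hss : Real.sqrt x.2 ^ 2 = x.2 := Real.sq_sqrt hx2.le
    have e00 : (gx x hx) 0 0 = ((Real.sqrt x.2 : ℝ) : ℂ) := rfl
    have e01 : (gx x hx) 0 1 = x.1 / ((Real.sqrt x.2 : ℝ) : ℂ) := rfl
    have e10 : (gx x hx) 1 0 = 0 := rfl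
    have e11 : (gx x hx) 1 1 = 1 / ((Real.sqrt x.2 : ℝ) : ℂ) := rfl
    have hden : den (gx x hx) y = 1 / x.2 := by
      unfold den
      rw [e10, e11]
      simp only [zero_mul, zero_add, norm_zero]
      rw [norm_div, norm_one, Complex.norm_real, Real.norm_eq_abs, abs_of_pos hs, div_pow,
        hss]
      ring
    have hssc : ((Real.sqrt x.2 : ℝ) : ℂ) ^ 2 = ((x.2 : ℝ) : ℂ) := by exact_mod_cast hss
    unfold ga
    rw [hden, e00, e01, e10, e11]
    refine Prod.ext ?_ ?_
    · simp only [zero_mul, zero_add, map_zero, mul_zero, add_zero, map_div₀, map_one,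
        Complex.conj_ofReal]
      push_cast
      field_simp
      linear_combination (-x.1) * hssc
    · simp only
      field_simp
  · intro g x hx hv
    have hN : 0 < den g x := den_pos g x hx
    have hNc : ((den g x : ℝ) : ℂ) ≠ 0 := by exact_mod_cast hN.ne'
    have hNe := den_c g x
    have hd := det1 g
    have e1 : (ga g x).1 = ((g 0 0 * x.1 + g 0 1) * conj (g 1 0 * x.1 + g 1 1) +
        g 0 0 * conj (g 1 0) * (x.2 : ℂ) ^ 2) / (den g x : ℂ) := rfl
    rw [e1]
    unfold mb
    rw [div_sub_div _ _ hNc hv]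
    congr 1
    rw [map_add, map_mul, hNe]
    linear_combination (conj (g 1 0) * (x.2 : ℂ) ^ 2) * hd

end Pool.Agent.Helper78.QA
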