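import Pool.Agent.Helper86.QA.St3

/-!
# Project QD, part A, module ASO: the area cocycle near a domain of discontinuity
-/

set_option autoImplicit false

open MeasureTheory Matrix Set Topology Metric
open scoped ENNReal ComplexConjugate

namespace Pool.Agent.Helper78.QA

open Pool.Agent.Helper86.QA

private theorem dt2_abs (u v : ℂ) : |dt2 u v| ≤ ‖u‖ * ‖v‖ := by
  have h : dt2 u v = (conj u * v).im := by
    unfold dt2
    simp only [Complex.mul_im, Complex.conj_re, Complex.conj_im]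
    ring
  rw [h]
  calc |(conj u * v).im| ≤ ‖conj u * v‖ := Complex.abs_im_le_norm _
    _ = ‖u‖ * ‖v‖ := by rw [norm_mul, Complex.norm_conj]

private theorem dt2_lin (c a b e1 e2 : ℂ) : dt2 (c * a + e1) (c * b + e2) =
    ‖c‖ ^ 2 * dt2 a b + (dt2 (c * a) e2 + dt2 e1 (c * b) + dt2 e1 e2) := by
  rw [Complex.sq_norm, Complex.normSq_apply]
  unfold dt2
  simp only [Complex.mul_re, Complex.mul_im, Complex.add_re, Complex.add_im]
  ring

private theorem taylor (F : ℂ → ℂ) (A K : Set ℂ) (hA : IsOpen A) (hF : DifferentiableOn ℂ F A)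
    (hK : IsCompact K) (r : ℝ) (hKr : cthickening r K ⊆ A) :
    ∃ M : ℝ, 0 < M ∧ (∀ z ∈ K, ‖deriv F z‖ ≤ M) ∧
      ∀ z ∈ K, ∀ h : ℂ, ‖h‖ ≤ r → ‖F (z + h) - F z - deriv F z * h‖ ≤ M * ‖h‖ ^ 2 := by
  have hK' : IsCompact (cthickening r K) := hK.cthickening
  have hF1 : DifferentiableOn ℂ (deriv F) A := hF.deriv hA
  have hF2 : DifferentiableOn ℂ (deriv (deriv F)) A := hF1.deriv hA
  obtain ⟨M1, hM1⟩ := hK'.exists_bound_of_continuousOn (hF1.continuousOn.mono hKr)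
  obtain ⟨M2, hM2⟩ := hK'.exists_bound_of_continuousOn (hF2.continuousOn.mono hKr)
  refine ⟨max 1 (max M1 M2), lt_of_lt_of_le one_pos (le_max_left _ _), ?_, ?_⟩
  · intro z hz
    refine (hM1 z ?_).trans ((le_max_left _ _).trans (le_max_right _ _))
    exact self_subset_cthickening K hz
  · intro z hz h hh
    have hball : closedBall z ‖h‖ ⊆ cthickening r K :=
      (closedBall_subset_closedBall hh).trans (closedBall_subset_cthickening hz r)
    have hballA : closedBall z ‖h‖ ⊆ A := hball.trans hKr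
    have hc : Convex ℝ (closedBall z ‖h‖) := convex_closedBall _ _
    have hzb : z ∈ closedBall z ‖h‖ := mem_closedBall_self (norm_nonneg _)
    have hzh : z + h ∈ closedBall z ‖h‖ := by
      rw [mem_closedBall, dist_eq_norm]
      simp
    have hd : ∀ w ∈ closedBall z ‖h‖, ‖deriv F w - deriv F z‖ ≤ M2 * ‖h‖ := by
      intro w hw
      have h1 : ‖deriv F w - deriv F z‖ ≤ M2 * ‖w - z‖ := by
        refine hc.norm_image_sub_le_of_norm_deriv_le (𝕜 := ℂ) (f := deriv F) ?_ ?_ hzb hw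
        · intro x hx
          exact (hF1 x (hballA hx)).differentiableAt (hA.mem_nhds (hballA hx))
        · intro x hx
          exact hM2 x (hball hx)
      have h2 : ‖w - z‖ ≤ ‖h‖ := by
        rw [mem_closedBall, dist_eq_norm] at hw
        exact hw
      have hM0 : 0 ≤ M2 := (norm_nonneg _).trans (hM2 z (hball hzb))
      exact h1.trans (mul_le_mul_of_nonneg_left h2 hM0)
    have h3 : ‖(F (z + h) - deriv F z * (z + h)) - (F z - deriv F z * z)‖ ≤
        (M2 * ‖h‖) * ‖(z + h) - z‖ := by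
      refine hc.norm_image_sub_le_of_norm_deriv_le (𝕜 := ℂ)
        (f := fun w => F w - deriv F z * w) ?_ ?_ hzb hzh
      · intro x hx
        have hx1 := (hF x (hballA hx)).differentiableAt (hA.mem_nhds (hballA hx))
        exact hx1.sub (differentiableAt_id.const_mul _)
      · intro x hx
        have hx1 := (hF x (hballA hx)).differentiableAt (hA.mem_nhds (hballA hx))
        have hx2 : HasDerivAt (fun w => F w - deriv F z * w) (deriv F x - deriv F z * 1) x :=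
          hx1.hasDerivAt.sub ((hasDerivAt_id x).const_mul _)
        rw [hx2.deriv, mul_one]
        exact hd x hx
    have h4 : F (z + h) - F z - deriv F z * h =
        (F (z + h) - deriv F z * (z + h)) - (F z - deriv F z * z) := by ring
    rw [h4]
    refine h3.trans ?_
    have h5 : z + h - z = h := by ring
    rw [h5]
    have h6 : M2 ≤ max 1 (max M1 M2) := (le_max_right _ _).trans (le_max_right _ _)
    calc M2 * ‖h‖ * ‖h‖ = M2 * ‖h‖ ^ 2 := by ring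
      _ ≤ _ := mul_le_mul_of_nonneg_right h6 (sq_nonneg _)

private theorem algebra (t C1 C2 M R E G m I0 : ℝ) (c a b e1 e2 p q : ℂ) (X : ℝ)
    (ht : 0 < t) (ht1 : t ≤ 1) (hC1 : 0 < C1) (hC2 : 0 < C2) (hM : 0 < M) (hR : 0 < R)
    (hE : 0 < E) (hm : 0 < m)
    (hG : G = M * R + E) (hc : ‖c‖ ≤ M) (ha : ‖a‖ ≤ R) (hb : ‖b‖ ≤ R)
    (he1 : ‖e1‖ ≤ E * t ^ 2) (he2 : ‖e2‖ ≤ E * t ^ 2)
    (hp : m ≤ p.im) (hq : m ≤ q.im) (hpI : p.im ≤ I0) (hqI : q.im ≤ I0)
    (hpq : ‖p - q‖ ≤ C1 * t ^ 2)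
    (hX : |X - dt2 ((t : ℂ) * (c * a) + e1) ((t : ℂ) * (c * b) + e2) / (2 * p.im ^ 2)| ≤
      C2 * (‖(t : ℂ) * (c * a) + e1‖ + ‖(t : ℂ) * (c * b) + e2‖) ^ 3) :
    |X - t ^ 2 * (‖c‖ ^ 2 / q.im ^ 2 / 2 * dt2 a b)| ≤
      (8 * C2 * G ^ 3 + (2 * M * R * E + E ^ 2) / (2 * m ^ 2) +
        M ^ 2 * R ^ 2 * C1 * I0 / m ^ 4) * t ^ 3 := by
  have ht2 : t ^ 2 ≤ t := by nlinarith
  have hEt : E * t ^ 2 ≤ E * t := mul_le_mul_of_nonneg_left ht2 hE.le
  have hnt : ‖(t : ℂ)‖ = t := by rw [Complex.norm_real, Real.norm_eq_abs, abs_of_pos ht]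
  have hca : ‖c * a‖ ≤ M * R := by
    rw [norm_mul]
    exact mul_le_mul hc ha (norm_nonneg _) hM.le
  have hcb : ‖c * b‖ ≤ M * R := by
    rw [norm_mul]
    exact mul_le_mul hc hb (norm_nonneg _) hM.le
  have hMR : 0 < M * R := mul_pos hM hR
  have hG0 : 0 < G := by rw [hG]; linarith
  have hd1 : ‖(t : ℂ) * (c * a) + e1‖ ≤ G * t := by
    calc ‖(t : ℂ) * (c * a) + e1‖ ≤ ‖(t : ℂ) * (c * a)‖ + ‖e1‖ := norm_add_le _ _
      _ ≤ t * (M * R) + E * t := by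
          rw [norm_mul, hnt]
          exact add_le_add (mul_le_mul_of_nonneg_left hca ht.le) (he1.trans hEt)
      _ = G * t := by rw [hG]; ring
  have hd2 : ‖(t : ℂ) * (c * b) + e2‖ ≤ G * t := by
    calc ‖(t : ℂ) * (c * b) + e2‖ ≤ ‖(t : ℂ) * (c * b)‖ + ‖e2‖ := norm_add_le _ _
      _ ≤ t * (M * R) + E * t := by
          rw [norm_mul, hnt]
          exact add_le_add (mul_le_mul_of_nonneg_left hcb ht.le) (he2.trans hEt)
      _ = G * t := by rw [hG]; ring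
  have h1 : C2 * (‖(t : ℂ) * (c * a) + e1‖ + ‖(t : ℂ) * (c * b) + e2‖) ^ 3 ≤
      8 * C2 * G ^ 3 * t ^ 3 := by
    have h : (‖(t : ℂ) * (c * a) + e1‖ + ‖(t : ℂ) * (c * b) + e2‖) ^ 3 ≤ (2 * (G * t)) ^ 3 := by
      refine pow_le_pow_left₀ (by positivity) ?_ 3
      linarith
    calc C2 * (‖(t : ℂ) * (c * a) + e1‖ + ‖(t : ℂ) * (c * b) + e2‖) ^ 3
        ≤ C2 * (2 * (G * t)) ^ 3 := mul_le_mul_of_nonneg_left h hC2.le
      _ = _ := by ring
  -- expansion of the determinant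
  have hdt : dt2 ((t : ℂ) * (c * a) + e1) ((t : ℂ) * (c * b) + e2) =
      t ^ 2 * ‖c‖ ^ 2 * dt2 a b + (dt2 ((t : ℂ) * (c * a)) e2 + dt2 e1 ((t : ℂ) * (c * b)) +
        dt2 e1 e2) := by
    have h := dt2_lin ((t : ℂ) * c) a b e1 e2
    rw [norm_mul, hnt] at h
    have e3 : (t : ℂ) * (c * a) = (t : ℂ) * c * a := by ring
    have e4 : (t : ℂ) * (c * b) = (t : ℂ) * c * b := by ring
    rw [e3, e4, h]
    ring
  set Y : ℝ := dt2 ((t : ℂ) * (c * a)) e2 + dt2 e1 ((t : ℂ) * (c * b)) + dt2 e1 e2 with hY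
  have hYb : |Y| ≤ (2 * M * R * E + E ^ 2) * t ^ 3 := by
    have y1 : |dt2 ((t : ℂ) * (c * a)) e2| ≤ (t * (M * R)) * (E * t ^ 2) := by
      refine (dt2_abs _ _).trans ?_
      rw [norm_mul, hnt]
      exact mul_le_mul (mul_le_mul_of_nonneg_left hca ht.le) he2 (norm_nonneg _) (by positivity)
    have y2 : |dt2 e1 ((t : ℂ) * (c * b))| ≤ (E * t ^ 2) * (t * (M * R)) := by
      refine (dt2_abs _ _).trans ?_
      rw [norm_mul, hnt]
      exact mul_le_mul he1 (mul_le_mul_of_nonneg_left hcb ht.le) (by positivity) (by positivity)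
    have y3 : |dt2 e1 e2| ≤ (E * t ^ 2) * (E * t ^ 2) := by
      refine (dt2_abs _ _).trans ?_
      exact mul_le_mul he1 he2 (norm_nonneg _) (by positivity)
    have y4 : (E * t ^ 2) * (E * t ^ 2) ≤ E ^ 2 * t ^ 3 := by
      have : t ^ 4 ≤ t ^ 3 := by
        have : t ^ 3 * t ≤ t ^ 3 * 1 := mul_le_mul_of_nonneg_left ht1 (by positivity)
        linarith
      have h := mul_le_mul_of_nonneg_left this (sq_nonneg E)
      linarith
    calc |Y| ≤ |dt2 ((t : ℂ) * (c * a)) e2 + dt2 e1 ((t : ℂ) * (c * b))| + |dt2 e1 e2| :=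
          abs_add_le _ _
      _ ≤ |dt2 ((t : ℂ) * (c * a)) e2| + |dt2 e1 ((t : ℂ) * (c * b))| + |dt2 e1 e2| := by
          gcongr
          exact abs_add_le _ _
      _ ≤ (t * (M * R)) * (E * t ^ 2) + (E * t ^ 2) * (t * (M * R)) + E ^ 2 * t ^ 3 := by
          linarith
      _ = _ := by ring
  have hp0 : 0 < p.im := lt_of_lt_of_le hm hp
  have hq0 : 0 < q.im := lt_of_lt_of_le hm hq
  have hI0 : 0 < I0 := lt_of_lt_of_le hp0 hpI
  have hpq2 : |q.im - p.im| ≤ C1 * t ^ 2 := by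
    have h : |(p - q).im| ≤ ‖p - q‖ := Complex.abs_im_le_norm _
    rw [Complex.sub_im, abs_sub_comm] at h
    exact h.trans hpq
  have hpm : m ^ 2 ≤ p.im ^ 2 := pow_le_pow_left₀ hm.le hp 2
  have hqm : m ^ 2 ≤ q.im ^ 2 := pow_le_pow_left₀ hm.le hq 2
  have hdab : |dt2 a b| ≤ R ^ 2 := by
    refine (dt2_abs a b).trans ?_
    rw [sq]
    exact mul_le_mul ha hb (norm_nonneg _) hR.le
  have key : dt2 ((t : ℂ) * (c * a) + e1) ((t : ℂ) * (c * b) + e2) / (2 * p.im ^ 2) -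
      t ^ 2 * (‖c‖ ^ 2 / q.im ^ 2 / 2 * dt2 a b) =
      Y / (2 * p.im ^ 2) + t ^ 2 * ‖c‖ ^ 2 * dt2 a b *
        ((q.im - p.im) * (q.im + p.im) / (2 * (p.im ^ 2 * q.im ^ 2))) := by
    rw [hdt]
    field_simp
    ring
  have k1 : |Y / (2 * p.im ^ 2)| ≤ (2 * M * R * E + E ^ 2) / (2 * m ^ 2) * t ^ 3 := by
    rw [abs_div, abs_of_pos (by positivity : 0 < 2 * p.im ^ 2)]
    calc |Y| / (2 * p.im ^ 2) ≤ ((2 * M * R * E + E ^ 2) * t ^ 3) / (2 * m ^ 2) := by
          refine div_le_div₀ (by positivity) hYb (by positivity) (by linarith)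
      _ = _ := by ring
  have k2 : |t ^ 2 * ‖c‖ ^ 2 * dt2 a b *
        ((q.im - p.im) * (q.im + p.im) / (2 * (p.im ^ 2 * q.im ^ 2)))| ≤
      M ^ 2 * R ^ 2 * C1 * I0 / m ^ 4 * t ^ 3 := by
    have c2 : ‖c‖ ^ 2 ≤ M ^ 2 := pow_le_pow_left₀ (norm_nonneg _) hc 2
    have a1 : |t ^ 2 * ‖c‖ ^ 2 * dt2 a b| ≤ t ^ 2 * M ^ 2 * R ^ 2 := by
      rw [abs_mul, abs_of_nonneg (by positivity : 0 ≤ t ^ 2 * ‖c‖ ^ 2)]
      exact mul_le_mul (mul_le_mul_of_nonneg_left c2 (by positivity)) hdab (abs_nonneg _)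
        (by positivity)
    have a2 : |(q.im - p.im) * (q.im + p.im)| ≤ (C1 * t ^ 2) * (2 * I0) := by
      rw [abs_mul, abs_of_pos (by linarith : 0 < q.im + p.im)]
      exact mul_le_mul hpq2 (by linarith) (by linarith) (by positivity)
    have a3 : m ^ 4 ≤ p.im ^ 2 * q.im ^ 2 := by
      have := mul_le_mul hpm hqm (by positivity) (by positivity)
      calc m ^ 4 = m ^ 2 * m ^ 2 := by ring
        _ ≤ _ := this
    have a4 : |(q.im - p.im) * (q.im + p.im) / (2 * (p.im ^ 2 * q.im ^ 2))| ≤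
        ((C1 * t ^ 2) * (2 * I0)) / (2 * m ^ 4) := by
      rw [abs_div, abs_of_pos (by positivity : 0 < 2 * (p.im ^ 2 * q.im ^ 2))]
      exact div_le_div₀ (by positivity) a2 (by positivity) (by linarith)
    rw [abs_mul]
    calc |t ^ 2 * ‖c‖ ^ 2 * dt2 a b| *
        |(q.im - p.im) * (q.im + p.im) / (2 * (p.im ^ 2 * q.im ^ 2))|
        ≤ (t ^ 2 * M ^ 2 * R ^ 2) * (((C1 * t ^ 2) * (2 * I0)) / (2 * m ^ 4)) :=
          mul_le_mul a1 a4 (abs_nonneg _) (by positivity)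
      _ = M ^ 2 * R ^ 2 * C1 * I0 / m ^ 4 * (t ^ 3 * t) := by
          field_simp
      _ ≤ M ^ 2 * R ^ 2 * C1 * I0 / m ^ 4 * (t ^ 3 * 1) := by
          gcongr
      _ = _ := by ring
  have hfin : X - t ^ 2 * (‖c‖ ^ 2 / q.im ^ 2 / 2 * dt2 a b) =
      (X - dt2 ((t : ℂ) * (c * a) + e1) ((t : ℂ) * (c * b) + e2) / (2 * p.im ^ 2)) +
      (Y / (2 * p.im ^ 2) + t ^ 2 * ‖c‖ ^ 2 * dt2 a b *
        ((q.im - p.im) * (q.im + p.im) / (2 * (p.im ^ 2 * q.im ^ 2)))) := by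
    rw [← key]
    ring
  rw [hfin]
  refine (abs_add_le _ _).trans ?_
  have h5 := abs_add_le (Y / (2 * p.im ^ 2)) (t ^ 2 * ‖c‖ ^ 2 * dt2 a b *
        ((q.im - p.im) * (q.im + p.im) / (2 * (p.im ^ 2 * q.im ^ 2))))
  have h6 := hX.trans h1
  have h7 : (8 * C2 * G ^ 3 + (2 * M * R * E + E ^ 2) / (2 * m ^ 2) +
        M ^ 2 * R ^ 2 * C1 * I0 / m ^ 4) * t ^ 3 = 8 * C2 * G ^ 3 * t ^ 3 +
        (2 * M * R * E + E ^ 2) / (2 * m ^ 2) * t ^ 3 +
        M ^ 2 * R ^ 2 * C1 * I0 / m ^ 4 * t ^ 3 := by ring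
  rw [h7]
  linarith

theorem hASO (hARC : StARC) : StASO := by
  intro Γ _ ρ A B hKD F σ hCF Pi hPi hPA K R hK hKA
  rcases le_or_gt R 0 with hR | hR
  · refine ⟨1, one_pos, 1, one_pos, ?_⟩
    intro z hz t ht ht1 y2 y3 hy2 hy3 h2
    linarith
  have hAo : IsOpen A := hKD.opA
  obtain ⟨r, hr, hKr⟩ := hK.exists_cthickening_subset_open hAo hKA
  obtain ⟨M, hM, hM1, hM2⟩ := taylor F A K hAo hCF.dif hK r hKr
  obtain ⟨C1, hC1, t1, ht1, hPI⟩ := hPA (cthickening r K) hK.cthickening hKr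
  have hFK : IsCompact (F '' K) := hK.image_of_continuousOn (hCF.dif.continuousOn.mono hKA)
  have hHPo : IsOpen HP := isOpen_lt continuous_const Complex.continuous_im
  have hFKH : F '' K ⊆ HP := by
    rw [← hCF.img]
    exact image_mono hKA
  obtain ⟨s, hs, hsH⟩ := hFK.exists_cthickening_subset_open hHPo hFKH
  have hL : IsCompact (cthickening s (F '' K)) := hFK.cthickening
  obtain ⟨C2, hC2, r0, hr0, hAr⟩ := hARC.2.2.2.2.2.2 _ hL hsH
  obtain ⟨I0, hI0⟩ := hL.exists_bound_of_continuousOn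
    (f := fun p : ℂ => p) continuous_id.continuousOn
  -- lower bound of the imaginary part
  obtain ⟨m, hm, hmL⟩ : ∃ m : ℝ, 0 < m ∧ ∀ p ∈ cthickening s (F '' K), m ≤ p.im := by
    rcases (cthickening s (F '' K)).eq_empty_or_nonempty with he | hne
    · refine ⟨1, one_pos, ?_⟩
      intro p hp
      rw [he] at hp
      exact absurd hp (notMem_empty p)
    · obtain ⟨p0, hp0, hmin⟩ := hL.exists_isMinOn hne Complex.continuous_im.continuousOn
      exact ⟨p0.im, hsH hp0, fun p hp => hmin hp⟩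
  set E : ℝ := C1 * R ^ 2 + M * R ^ 2 + C1 with hE
  have hE0 : 0 < E := by positivity
  set G : ℝ := M * R + E with hG
  have hG0 : 0 < G := by positivity
  set t0 : ℝ := min 1 (min (r / R) (min (t1 / R) (min t1 (min (s / C1) (r0 / G))))) with ht0
  have ht0p : 0 < t0 := by
    rw [ht0]
    simp only [lt_min_iff]
    refine ⟨one_pos, by positivity, by positivity, ht1, by positivity, by positivity⟩
  have hI1 : 0 < max I0 1 := lt_of_lt_of_le one_pos (le_max_right _ _)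
  refine ⟨8 * C2 * G ^ 3 + (2 * M * R * E + E ^ 2) / (2 * m ^ 2) +
        M ^ 2 * R ^ 2 * C1 * max I0 1 / m ^ 4, by positivity, t0, ht0p, ?_⟩
  intro z hz t ht htt y2 y3 hy2 hy3 hy2R hy3R hn2 hn3
  rw [ht0] at htt
  simp only [lt_min_iff] at htt
  obtain ⟨u1, u2, u3, u4, u5, u6⟩ := htt
  have hz' : z ∈ cthickening r K := self_subset_cthickening K hz
  have htR : t * R < r := by rwa [lt_div_iff₀ hR] at u2
  have htR1 : t * R < t1 := by rwa [lt_div_iff₀ hR] at u3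
  have htC : t * C1 < s := by rwa [lt_div_iff₀ hC1] at u5
  have htG : t * G < r0 := by rwa [lt_div_iff₀ hG0] at u6
  have hnt : ‖(t : ℂ)‖ = t := by rw [Complex.norm_real, Real.norm_eq_abs, abs_of_pos ht]
  have ht2 : t ^ 2 ≤ t := by nlinarith
  have hp : ‖Pi (z, t) - F z‖ ≤ C1 * t ^ 2 := hPI z hz' t ht u4
  have hps : Pi (z, t) ∈ cthickening s (F '' K) := by
    refine closedBall_subset_cthickening (mem_image_of_mem F hz) s ?_
    rw [mem_closedBall, dist_eq_norm]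
    refine hp.trans ?_
    have := mul_le_mul_of_nonneg_left ht2 hC1.le
    linarith
  have hqs : F z ∈ cthickening s (F '' K) := self_subset_cthickening _ (mem_image_of_mem F hz)
  -- the displacement of a point
  have hdisp : ∀ y : Pt, 0 < y.2 → y.2 ≤ R → ‖y.1‖ ≤ R →
      ‖(Pi (mv (z, t) y) - Pi (z, t)) - (t : ℂ) * (deriv F z * y.1)‖ ≤ E * t ^ 2 := by
    intro y hy hyR hnR
    have hty : ‖(t : ℂ) * y.1‖ ≤ t * R := by
      rw [norm_mul, hnt]
      exact mul_le_mul_of_nonneg_left hnR ht.le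
    have hw : z + (t : ℂ) * y.1 ∈ cthickening r K := by
      refine closedBall_subset_cthickening hz r ?_
      rw [mem_closedBall, dist_eq_norm]
      have : z + (t : ℂ) * y.1 - z = (t : ℂ) * y.1 := by ring
      rw [this]
      linarith
    have hty2 : t * y.2 ≤ t * R := mul_le_mul_of_nonneg_left hyR ht.le
    have g1 : ‖Pi (z + (t : ℂ) * y.1, t * y.2) - F (z + (t : ℂ) * y.1)‖ ≤ C1 * (t * y.2) ^ 2 :=
      hPI _ hw (t * y.2) (by positivity) (by linarith)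
    have g1' : C1 * (t * y.2) ^ 2 ≤ C1 * R ^ 2 * t ^ 2 := by
      have h : (t * y.2) ^ 2 ≤ (t * R) ^ 2 := pow_le_pow_left₀ (by positivity) hty2 2
      have h' := mul_le_mul_of_nonneg_left h hC1.le
      calc C1 * (t * y.2) ^ 2 ≤ C1 * (t * R) ^ 2 := h'
        _ = _ := by ring
    have g2 := hM2 z hz ((t : ℂ) * y.1) (by linarith)
    have g2' : M * ‖(t : ℂ) * y.1‖ ^ 2 ≤ M * R ^ 2 * t ^ 2 := by
      have h : ‖(t : ℂ) * y.1‖ ^ 2 ≤ (t * R) ^ 2 := pow_le_pow_left₀ (norm_nonneg _) hty 2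
      have h' := mul_le_mul_of_nonneg_left h hM.le
      calc M * ‖(t : ℂ) * y.1‖ ^ 2 ≤ M * (t * R) ^ 2 := h'
        _ = _ := by ring
    have e : (Pi (mv (z, t) y) - Pi (z, t)) - (t : ℂ) * (deriv F z * y.1) =
        (Pi (z + (t : ℂ) * y.1, t * y.2) - F (z + (t : ℂ) * y.1)) +
        (F (z + (t : ℂ) * y.1) - F z - deriv F z * ((t : ℂ) * y.1)) - (Pi (z, t) - F z) := by
      unfold mv
      ring
    rw [e]
    calc ‖(Pi (z + (t : ℂ) * y.1, t * y.2) - F (z + (t : ℂ) * y.1)) +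
        (F (z + (t : ℂ) * y.1) - F z - deriv F z * ((t : ℂ) * y.1)) - (Pi (z, t) - F z)‖
        ≤ ‖(Pi (z + (t : ℂ) * y.1, t * y.2) - F (z + (t : ℂ) * y.1)) +
        (F (z + (t : ℂ) * y.1) - F z - deriv F z * ((t : ℂ) * y.1))‖ + ‖Pi (z, t) - F z‖ :=
          norm_sub_le _ _
      _ ≤ ‖Pi (z + (t : ℂ) * y.1, t * y.2) - F (z + (t : ℂ) * y.1)‖ +
        ‖F (z + (t : ℂ) * y.1) - F z - deriv F z * ((t : ℂ) * y.1)‖ + ‖Pi (z, t) - F z‖ := by
          gcongr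
          exact norm_add_le _ _
      _ ≤ C1 * R ^ 2 * t ^ 2 + M * R ^ 2 * t ^ 2 + C1 * t ^ 2 := by
          linarith
      _ = E * t ^ 2 := by rw [hE]; ring
  have hd2 := hdisp y2 hy2 hy2R hn2
  have hd3 := hdisp y3 hy3 hy3R hn3
  have hFz : ‖deriv F z‖ ≤ M := hM1 z hz
  have hEt : E * t ^ 2 ≤ E * t := mul_le_mul_of_nonneg_left ht2 hE0.le
  -- bound of the displacement
  have hbd : ∀ y : Pt, ‖y.1‖ ≤ R →
      ‖(Pi (mv (z, t) y) - Pi (z, t)) - (t : ℂ) * (deriv F z * y.1)‖ ≤ E * t ^ 2 →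
      ‖Pi (mv (z, t) y) - Pi (z, t)‖ ≤ r0 := by
    intro y hn h
    have e : Pi (mv (z, t) y) - Pi (z, t) = (t : ℂ) * (deriv F z * y.1) +
      ((Pi (mv (z, t) y) - Pi (z, t)) - (t : ℂ) * (deriv F z * y.1)) := by ring
    have h1 : ‖(t : ℂ) * (deriv F z * y.1)‖ ≤ t * (M * R) := by
      rw [norm_mul, norm_mul, hnt]
      exact mul_le_mul_of_nonneg_left (mul_le_mul hFz hn (norm_nonneg _) hM.le) ht.le
    rw [e]
    refine (norm_add_le _ _).trans ?_
    have : t * G = t * (M * R) + E * t := by rw [hG]; ring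
    linarith
  have hb2 := hbd y2 hn2 hd2
  have hb3 := hbd y3 hn3 hd3
  have hX := hAr (Pi (z, t)) hps (Pi (mv (z, t) y2) - Pi (z, t)) (Pi (mv (z, t) y3) - Pi (z, t))
    hb2 hb3
  have c2 : Pi (z, t) + (Pi (mv (z, t) y2) - Pi (z, t)) = Pi (mv (z, t) y2) := by ring
  have c3 : Pi (z, t) + (Pi (mv (z, t) y3) - Pi (z, t)) = Pi (mv (z, t) y3) := by ring
  rw [c2, c3] at hX
  have d2 : Pi (mv (z, t) y2) - Pi (z, t) = (t : ℂ) * (deriv F z * y2.1) +
      ((Pi (mv (z, t) y2) - Pi (z, t)) - (t : ℂ) * (deriv F z * y2.1)) := by ring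
  have d3 : Pi (mv (z, t) y3) - Pi (z, t) = (t : ℂ) * (deriv F z * y3.1) +
      ((Pi (mv (z, t) y3) - Pi (z, t)) - (t : ℂ) * (deriv F z * y3.1)) := by ring
  rw [d2, d3] at hX
  have hpI : (Pi (z, t)).im ≤ max I0 1 :=
    ((le_abs_self _).trans ((Complex.abs_im_le_norm _).trans (hI0 _ hps))).trans (le_max_left _ _)
  have hqI : (F z).im ≤ max I0 1 :=
    ((le_abs_self _).trans ((Complex.abs_im_le_norm _).trans (hI0 _ hqs))).trans (le_max_left _ _)
  exact algebra t C1 C2 M R E G m (max I0 1) (deriv F z) y2.1 y3.1 _ _ (Pi (z, t)) (F z) _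
    ht u1.le hC1 hC2 hM hR hE0 hm hG hFz hn2 hn3 hd2 hd3 (hmL _ hps) (hmL _ hqs) hpI hqI hp hX

end Pool.Agent.Helper78.QA
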