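import Pool.Agent.Helper86.QA.St1

/-!
# Project QD, part A, module EN1: the energy of harmonic measure seen from infinity
-/

set_option autoImplicit false

open MeasureTheory Matrix Set Topology
open scoped ENNReal ComplexConjugate

namespace Pool.Agent.Helper78.QA

open Pool.Agent.Helper86.QA

private theorem pp_symm (z ξ : ℂ) (t : ℝ) : pp (z, t) ξ = pp (ξ, t) z := by
  unfold pp
  simp only
  rw [norm_sub_rev]

private theorem hv_univ (hHME : StHME) (x : Pt) (hx : x ∈ up) : hv univ x = 1 := by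
  have h := hHME.2.1 univ ∅ x MeasurableSet.univ MeasurableSet.empty (disjoint_empty _)
    (by simp) hx
  have h0 : hv ∅ x = 0 := by
    unfold hv
    simp
  rw [h0, add_zero] at h
  exact h

private theorem pp_lint (hHME : StHME) (ξ : ℂ) (t : ℝ) (ht : 0 < t) :
    ∫⁻ z : ℂ, ENNReal.ofReal (pp (z, t) ξ ^ 2) = ENNReal.ofReal Real.pi := by
  have hx : ((ξ, t) : Pt) ∈ up := ht
  have h1 := (hHME.1 univ (ξ, t) MeasurableSet.univ hx).1
  rw [integrableOn_univ] at h1
  have h2 := hv_univ hHME (ξ, t) hx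
  unfold hv at h2
  rw [Measure.restrict_univ] at h2
  have h3 : ∫ z : ℂ, pp (ξ, t) z ^ 2 = Real.pi := by
    have hp := Real.pi_pos
    field_simp at h2
    linarith
  have h4 : ∀ z : ℂ, ENNReal.ofReal (pp (z, t) ξ ^ 2) = ENNReal.ofReal (pp (ξ, t) z ^ 2) := by
    intro z
    rw [pp_symm]
  simp only [h4]
  rw [← ofReal_integral_eq_lintegral_ofReal h1 (Filter.Eventually.of_forall fun z => sq_nonneg _),
    h3]

private theorem pp_meas (t : ℝ) :
    Measurable (fun p : ℂ × ℂ => ENNReal.ofReal (pp (p.1, t) p.2 ^ 2)) := by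
  unfold pp
  simp only
  fun_prop

private theorem hv_lint (hHME : StHME) (B : Set ℂ) (hB : MeasurableSet B) (t : ℝ) (ht : 0 < t) :
    ∫⁻ z : ℂ, ENNReal.ofReal (hv B (z, t)) = volume B := by
  have h1 : ∀ z : ℂ, ENNReal.ofReal (hv B (z, t)) = ENNReal.ofReal (1 / Real.pi) *
      ∫⁻ ξ in B, ENNReal.ofReal (pp (z, t) ξ ^ 2) := by
    intro z
    have hx : ((z, t) : Pt) ∈ up := ht
    have h2 := (hHME.1 B (z, t) hB hx).1
    unfold hv
    rw [ENNReal.ofReal_mul (by positivity),
      ofReal_integral_eq_lintegral_ofReal h2 (Filter.Eventually.of_forall fun z => sq_nonneg _)]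
  simp only [h1]
  have hm := pp_meas t
  rw [lintegral_const_mul]
  · rw [lintegral_lintegral_swap hm.aemeasurable]
    simp only [pp_lint hHME _ t ht]
    rw [setLIntegral_const, ← mul_assoc, ← ENNReal.ofReal_mul (by positivity)]
    have hp := Real.pi_pos
    rw [one_div, inv_mul_cancel₀ hp.ne', ENNReal.ofReal_one, one_mul]
  · exact Measurable.lintegral_prod_right' hm

private theorem kk_nonneg (x y : Pt) : 0 ≤ kk x y := by
  unfold kk
  split_ifs <;> norm_num

private theorem kk_m2 (hCHI : StCHI) : Measurable (fun p : Pt × Pt => kk p.1 p.2) :=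
  hCHI.2.2.2.2.2

private theorem kk_m1 (hCHI : StCHI) (x : Pt) : Measurable (fun y : Pt => kk x y) :=
  (kk_m2 hCHI).comp (g := fun p : Pt × Pt => kk p.1 p.2) (f := fun y : Pt => (x, y))
    (measurable_const.prodMk measurable_id)

private theorem hv_m (hHME : StHME) (B : Set ℂ) (hB : MeasurableSet B) : Measurable (hv B) :=
  (hHME.2.2.1 B hB).1

private theorem hv_m2 (hHME : StHME) (B : Set ℂ) (hB : MeasurableSet B) :
    Measurable (fun x : Pt => hv B x ^ 2) :=
  (hv_m hHME B hB).pow_const 2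

attribute [local irreducible] kk hv VV al ga ch

/-- weighted mass of the square of harmonic measure over a slab -/
private noncomputable def W (B : Set ℂ) (A : Set ℝ) : ℝ≥0∞ :=
  ∫⁻ x, A.indicator (fun _ => (1 : ℝ≥0∞)) x.2 *
    (ENNReal.ofReal (x.2 ^ 2) * ENNReal.ofReal (hv B x ^ 2)) ∂vol

private theorem hv_sq_meas (hHME : StHME) (B : Set ℂ) (hB : MeasurableSet B) :
    Measurable (fun x : Pt => ENNReal.ofReal (hv B x ^ 2)) :=
  (hv_m2 hHME B hB).ennreal_ofReal

private theorem W_m (hHME : StHME) (B : Set ℂ) (hB : MeasurableSet B) (A : Set ℝ)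
    (hA : MeasurableSet A) : Measurable (fun x : Pt => A.indicator (fun _ => (1 : ℝ≥0∞)) x.2 *
      (ENNReal.ofReal (x.2 ^ 2) * ENNReal.ofReal (hv B x ^ 2))) := by
  have h1 : Measurable (fun x : Pt => A.indicator (fun _ => (1 : ℝ≥0∞)) x.2) :=
    (measurable_const.indicator hA).comp measurable_snd
  have h2 : Measurable (fun x : Pt => ENNReal.ofReal (x.2 ^ 2)) := by fun_prop
  exact Measurable.mul h1 (Measurable.mul h2 (hv_sq_meas hHME B hB))

private theorem W_le (hVOL : StVOL) (hHME : StHME) (B : Set ℂ) (hB : MeasurableSet B)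
    (a b : ℝ) (ha : 0 < a) (hab : a ≤ b) :
    W B (Icc a b) ≤ ENNReal.ofReal (Real.log (b / a)) * volume B := by
  unfold W
  rw [hVOL.1 _ (W_m hHME B hB _ measurableSet_Icc)]
  have step : ∀ t ∈ Ioi (0 : ℝ), ENNReal.ofReal (1 / t ^ 3) *
      ∫⁻ z : ℂ, (Icc a b).indicator (fun _ => (1 : ℝ≥0∞)) ((z, t) : Pt).2 *
        (ENNReal.ofReal (((z, t) : Pt).2 ^ 2) * ENNReal.ofReal (hv B (z, t) ^ 2)) ≤
      (Icc a b).indicator (fun t => ENNReal.ofReal (1 / t)) t * volume B := by
    intro t ht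
    have ht0 : 0 < t := ht
    have h1 : ∫⁻ z : ℂ, (Icc a b).indicator (fun _ => (1 : ℝ≥0∞)) ((z, t) : Pt).2 *
        (ENNReal.ofReal (((z, t) : Pt).2 ^ 2) * ENNReal.ofReal (hv B (z, t) ^ 2)) ≤
        (Icc a b).indicator (fun _ => (1 : ℝ≥0∞)) t * (ENNReal.ofReal (t ^ 2) * volume B) := by
      calc ∫⁻ z : ℂ, (Icc a b).indicator (fun _ => (1 : ℝ≥0∞)) ((z, t) : Pt).2 *
        (ENNReal.ofReal (((z, t) : Pt).2 ^ 2) * ENNReal.ofReal (hv B (z, t) ^ 2))
          ≤ ∫⁻ z : ℂ, ((Icc a b).indicator (fun _ => (1 : ℝ≥0∞)) t * ENNReal.ofReal (t ^ 2)) *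
            ENNReal.ofReal (hv B (z, t)) := by
            refine lintegral_mono fun z => ?_
            simp only
            rw [mul_assoc]
            gcongr
            have hx : ((z, t) : Pt) ∈ up := ht0
            have h2 := (hHME.1 B (z, t) hB hx).2
            nlinarith [h2.1, h2.2]
        _ = ((Icc a b).indicator (fun _ => (1 : ℝ≥0∞)) t * ENNReal.ofReal (t ^ 2)) *
            ∫⁻ z : ℂ, ENNReal.ofReal (hv B (z, t)) := by
            rw [lintegral_const_mul]
            have hmm : Measurable (fun z : ℂ => hv B (z, t)) :=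
              (hv_m hHME B hB).comp (g := hv B) (f := fun z : ℂ => ((z, t) : Pt))
                (measurable_id.prodMk measurable_const)
            exact hmm.ennreal_ofReal
        _ = _ := by
            rw [hv_lint hHME B hB t ht0, mul_assoc]
    refine (mul_le_mul_right h1 _).trans ?_
    by_cases hm : t ∈ Icc a b
    · rw [indicator_of_mem hm, indicator_of_mem hm, one_mul, ← mul_assoc,
        ← ENNReal.ofReal_mul (by positivity)]
      refine le_of_eq ?_
      congr 2
      field_simp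
    · rw [indicator_of_notMem hm, indicator_of_notMem hm]
      simp
  refine (setLIntegral_mono' measurableSet_Ioi step).trans ?_
  have hmI : Measurable ((Icc a b).indicator (fun t : ℝ => ENNReal.ofReal (1 / t))) := by
    refine Measurable.indicator ?_ measurableSet_Icc
    fun_prop
  rw [lintegral_mul_const _ hmI]
  gcongr
  calc ∫⁻ t in Ioi (0 : ℝ), (Icc a b).indicator (fun t : ℝ => ENNReal.ofReal (1 / t)) t
      ≤ ∫⁻ t, (Icc a b).indicator (fun t : ℝ => ENNReal.ofReal (1 / t)) t :=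
        setLIntegral_le_lintegral _ _
    _ = ∫⁻ t in Icc a b, ENNReal.ofReal (1 / t) := lintegral_indicator measurableSet_Icc _
    _ = ENNReal.ofReal (∫ t in Icc a b, 1 / t) := by
        rw [ofReal_integral_eq_lintegral_ofReal]
        · refine ContinuousOn.integrableOn_Icc ?_
          refine continuousOn_const.div continuousOn_id ?_
          intro t ht
          exact (lt_of_lt_of_le ha ht.1).ne'
        · refine (ae_restrict_mem measurableSet_Icc).mono fun t ht => ?_
          have : 0 < t := lt_of_lt_of_le ha ht.1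
          simp only [Pi.zero_apply]
          positivity
    _ ≤ ENNReal.ofReal (Real.log (b / a)) := by
        rw [integral_Icc_eq_integral_Ioc, ← intervalIntegral.integral_of_le hab,
          integral_one_div_of_pos ha (lt_of_lt_of_le ha hab)]

private theorem en_add (hKRN : StKRN) (hCHI : StCHI) (hHME : StHME) (B : Set ℂ)
    (hB : MeasurableSet B) (x : Pt) (hx : x ∈ up) :
    en B x + ENNReal.ofReal (VV * hv B x ^ 2) =
      ∫⁻ y, ENNReal.ofReal (kk x y * hv B y ^ 2) ∂vol := by
  obtain ⟨hk, hkV⟩ := hKRN.2.2 x hx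
  obtain ⟨hv1, hvV⟩ := hHME.2.2.2.2.1 B hB x hx
  have hvm2 := hv_m2 hHME B hB
  have hkm := kk_m1 hCHI x
  have hm2 : Measurable (fun y => kk x y * hv B y ^ 2) := Measurable.mul hkm hvm2
  have h2 : Integrable (fun y => kk x y * hv B y ^ 2) vol := by
    refine Integrable.mono' hk hm2.aestronglyMeasurable ?_
    refine ae_up.mono fun y hy => ?_
    have h := (hHME.1 B y hB hy).2
    have hkn := kk_nonneg x y
    have hp : 0 ≤ kk x y * hv B y ^ 2 := mul_nonneg hkn (sq_nonneg _)
    rw [Real.norm_eq_abs, abs_of_nonneg hp]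
    have : hv B y ^ 2 ≤ 1 := by nlinarith [h.1, h.2]
    exact mul_le_of_le_one_right hkn this
  have h3 : (fun y => kk x y * (hv B x - hv B y) ^ 2) = (fun y =>
      (hv B x ^ 2 * kk x y - 2 * hv B x * (kk x y * hv B y)) + kk x y * hv B y ^ 2) := by
    funext y
    ring
  have i1 : Integrable (fun y => hv B x ^ 2 * kk x y) vol := hk.const_mul _
  have i2 : Integrable (fun y => 2 * hv B x * (kk x y * hv B y)) vol := hv1.const_mul _
  have i3 : Integrable (fun y => hv B x ^ 2 * kk x y - 2 * hv B x * (kk x y * hv B y)) vol :=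
    Integrable.sub i1 i2
  have h4 : Integrable (fun y => kk x y * (hv B x - hv B y) ^ 2) vol := by
    rw [h3]
    exact Integrable.add i3 h2
  have h5 : ∫ y, kk x y * (hv B x - hv B y) ^ 2 ∂vol =
      (∫ y, kk x y * hv B y ^ 2 ∂vol) - VV * hv B x ^ 2 := by
    rw [h3, integral_add i3 h2, integral_sub i1 i2, integral_const_mul, integral_const_mul,
      hkV, hvV]
    ring
  have hen : en B x = ENNReal.ofReal (∫ y, kk x y * (hv B x - hv B y) ^ 2 ∂vol) := by
    unfold en
    rw [ofReal_integral_eq_lintegral_ofReal h4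
      (Filter.Eventually.of_forall fun y => mul_nonneg (kk_nonneg x y) (sq_nonneg _))]
  have hpos : 0 ≤ ∫ y, kk x y * (hv B x - hv B y) ^ 2 ∂vol :=
    integral_nonneg fun y => mul_nonneg (kk_nonneg x y) (sq_nonneg _)
  rw [hen, ← ENNReal.ofReal_add hpos (mul_nonneg hKRN.1.le (sq_nonneg _)), h5,
    ← ofReal_integral_eq_lintegral_ofReal h2
      (Filter.Eventually.of_forall fun y => mul_nonneg (kk_nonneg x y) (sq_nonneg _))]
  rw [sub_add_cancel]

private theorem en_meas (hCHI : StCHI) (hHME : StHME) (B : Set ℂ) (hB : MeasurableSet B) :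
    Measurable (en B) := by
  have hvm := hv_m hHME B hB
  have h1 : Measurable (fun p : Pt × Pt => hv B p.1) := hvm.comp measurable_fst
  have h2 : Measurable (fun p : Pt × Pt => hv B p.2) := hvm.comp measurable_snd
  have h3 : Measurable (fun p : Pt × Pt => hv B p.1 - hv B p.2) := Measurable.sub h1 h2
  have h4 : Measurable (fun p : Pt × Pt => (hv B p.1 - hv B p.2) ^ 2) := h3.pow_const 2
  have h5 : Measurable (fun p : Pt × Pt => kk p.1 p.2 * (hv B p.1 - hv B p.2) ^ 2) :=
    Measurable.mul (kk_m2 hCHI) h4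
  exact Measurable.lintegral_prod_right' h5.ennreal_ofReal

private theorem ll_gt : 1 < ll := by
  unfold ll
  have : 0 ≤ Real.sqrt 3 := Real.sqrt_nonneg _
  linarith

private theorem inner_le (hACT : StACT) (hCHI : StCHI) (hALP : StALP) (B : Set ℂ)
    (S T : ℝ) (y : Pt) (hy : y ∈ up) :
    ∫⁻ x, (Ioo S T).indicator (fun _ => (1 : ℝ≥0∞)) x.2 * ENNReal.ofReal (x.2 ^ 2) *
      ENNReal.ofReal (kk x y * hv B y ^ 2) ∂vol ≤
    ENNReal.ofReal VV * ((Icc (S / ll) (ll * T)).indicator (fun _ => (1 : ℝ≥0∞)) y.2 *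
      (ENNReal.ofReal (y.2 ^ 2) * ENNReal.ofReal (hv B y ^ 2))) := by
  have hl := ll_gt
  have hl0 : 0 < ll := by linarith
  have hpt : ∀ x ∈ up, (Ioo S T).indicator (fun _ => (1 : ℝ≥0∞)) x.2 * ENNReal.ofReal (x.2 ^ 2) *
      ENNReal.ofReal (kk x y * hv B y ^ 2) ≤
      (Icc (S / ll) (ll * T)).indicator (fun _ => (1 : ℝ≥0∞)) y.2 * ENNReal.ofReal (hv B y ^ 2) *
        ENNReal.ofReal (kk y x * (ga 1 x).2 ^ (2 : ℝ)) := by
    intro x hx
    have hx0 : 0 < x.2 := hx
    have hy0 : 0 < y.2 := hy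
    by_cases hm : x.2 ∈ Ioo S T
    swap
    · rw [indicator_of_notMem hm]
      simp
    have hsym := (hCHI.1 x hx y hy).2.1
    have hkk : kk x y = kk y x := by
      unfold kk
      rw [hsym]
    by_cases hc : ch x y ≤ 2
    swap
    · have : kk x y = 0 := by
        unfold kk
        rw [if_neg hc]
      rw [this]
      simp
    obtain ⟨c1, c2, -⟩ := hCHI.2.2.2.1 x hx y hy hc
    have hy2 : y.2 ∈ Icc (S / ll) (ll * T) := by
      constructor
      · rw [div_le_iff₀ hl0]
        linarith [hm.1]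
      · nlinarith [hm.2]
    rw [indicator_of_mem hm, indicator_of_mem hy2, one_mul, one_mul, hACT.2.2.1 x hx, hkk,
      Real.rpow_two, ← ENNReal.ofReal_mul (sq_nonneg _), ← ENNReal.ofReal_mul (sq_nonneg _)]
    refine le_of_eq ?_
    congr 1
    ring
  calc ∫⁻ x, (Ioo S T).indicator (fun _ => (1 : ℝ≥0∞)) x.2 * ENNReal.ofReal (x.2 ^ 2) *
      ENNReal.ofReal (kk x y * hv B y ^ 2) ∂vol
      ≤ ∫⁻ x, (Icc (S / ll) (ll * T)).indicator (fun _ => (1 : ℝ≥0∞)) y.2 *
          ENNReal.ofReal (hv B y ^ 2) * ENNReal.ofReal (kk y x * (ga 1 x).2 ^ (2 : ℝ)) ∂vol :=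
        lintegral_mono_ae (ae_up.mono fun x hx => hpt x hx)
    _ = (Icc (S / ll) (ll * T)).indicator (fun _ => (1 : ℝ≥0∞)) y.2 *
          ENNReal.ofReal (hv B y ^ 2) *
          ∫⁻ x, ENNReal.ofReal (kk y x * (ga 1 x).2 ^ (2 : ℝ)) ∂vol := by
        have m1 : Measurable (fun x : Pt => (ga 1 x).2) := (hACT.2.2.2.1 1).1.snd
        have m2 : Measurable (fun x : Pt => (ga 1 x).2 ^ (2 : ℝ)) := m1.pow_const _
        have m3 : Measurable (fun x : Pt => kk y x * (ga 1 x).2 ^ (2 : ℝ)) :=
          Measurable.mul (kk_m1 hCHI y) m2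
        rw [lintegral_const_mul _ m3.ennreal_ofReal]
    _ = _ := by
        rw [hALP.2.1 2 1 y hy, hACT.2.2.1 y hy, hALP.2.2.2.1, Real.rpow_two]
        have hV : 0 ≤ VV := by
          rw [← hALP.2.2.2.1]
          exact (hALP.1 2).1
        rw [ENNReal.ofReal_mul hV]
        ring

private theorem E_m (hCHI : StCHI) (hHME : StHME) (B : Set ℂ) (hB : MeasurableSet B) (A : Set ℝ)
    (hA : MeasurableSet A) : Measurable (fun x : Pt => A.indicator (fun _ => (1 : ℝ≥0∞)) x.2 *
      (ENNReal.ofReal (x.2 ^ 2) * en B x)) := by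
  have h1 : Measurable (fun x : Pt => A.indicator (fun _ => (1 : ℝ≥0∞)) x.2) :=
    (measurable_const.indicator hA).comp measurable_snd
  have h2 : Measurable (fun x : Pt => ENNReal.ofReal (x.2 ^ 2)) := by fun_prop
  exact Measurable.mul h1 (Measurable.mul h2 (en_meas hCHI hHME B hB))

private theorem sw_m (hCHI : StCHI) (hHME : StHME) (B : Set ℂ) (hB : MeasurableSet B) (A : Set ℝ)
    (hA : MeasurableSet A) : Measurable (fun p : Pt × Pt =>
      A.indicator (fun _ => (1 : ℝ≥0∞)) p.1.2 * ENNReal.ofReal (p.1.2 ^ 2) *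
      ENNReal.ofReal (kk p.1 p.2 * hv B p.2 ^ 2)) := by
  have h1 : Measurable (fun p : Pt × Pt => A.indicator (fun _ => (1 : ℝ≥0∞)) p.1.2) :=
    (measurable_const.indicator hA).comp (measurable_snd.comp measurable_fst)
  have h2 : Measurable (fun p : Pt × Pt => ENNReal.ofReal (p.1.2 ^ 2)) := by fun_prop
  have h3 : Measurable (fun p : Pt × Pt => hv B p.2 ^ 2) :=
    ((hv_m hHME B hB).comp measurable_snd).pow_const 2
  have h4 : Measurable (fun p : Pt × Pt => kk p.1 p.2 * hv B p.2 ^ 2) :=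
    Measurable.mul (kk_m2 hCHI) h3
  exact Measurable.mul (Measurable.mul h1 h2) h4.ennreal_ofReal

private theorem ind_mono (A A' : Set ℝ) (h : A ⊆ A') (y : ℝ) :
    A.indicator (fun _ => (1 : ℝ≥0∞)) y ≤ A'.indicator (fun _ => (1 : ℝ≥0∞)) y := by
  by_cases hm : y ∈ A
  · rw [indicator_of_mem hm, indicator_of_mem (h hm)]
  · rw [indicator_of_notMem hm]
    exact zero_le

private theorem ind_split (S T l y : ℝ) :
    (Icc (S / l) (l * T)).indicator (fun _ => (1 : ℝ≥0∞)) y ≤
      (Ioo S T).indicator (fun _ => (1 : ℝ≥0∞)) y +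
      ((Icc (S / l) S).indicator (fun _ => (1 : ℝ≥0∞)) y +
        (Icc T (l * T)).indicator (fun _ => (1 : ℝ≥0∞)) y) := by
  by_cases hm : y ∈ Icc (S / l) (l * T)
  swap
  · rw [indicator_of_notMem hm]
    exact zero_le
  rw [indicator_of_mem hm]
  rcases le_or_gt y S with h1 | h1
  · have : y ∈ Icc (S / l) S := ⟨hm.1, h1⟩
    rw [indicator_of_mem this]
    calc (1 : ℝ≥0∞) ≤ 1 + (Icc T (l * T)).indicator (fun _ => (1 : ℝ≥0∞)) y := le_self_add
      _ ≤ _ := le_add_self
  · rcases le_or_gt T y with h2 | h2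
    · have : y ∈ Icc T (l * T) := ⟨h2, hm.2⟩
      rw [indicator_of_mem this, ← add_assoc]
      exact le_add_self
    · have : y ∈ Ioo S T := ⟨h1, h2⟩
      rw [indicator_of_mem this]
      exact le_self_add

private theorem step (hACT : StACT) (hCHI : StCHI) (hVOL : StVOL) (hKRN : StKRN) (hALP : StALP)
    (hHME : StHME) (B : Set ℂ) (hB : MeasurableSet B) (hBf : volume B < ∞)
    (S T : ℝ) (hS : 0 < S) (hST : S < T) :
    ∫⁻ x, (Ioo S T).indicator (fun _ => (1 : ℝ≥0∞)) x.2 * (ENNReal.ofReal (x.2 ^ 2) * en B x) ∂vol ≤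
      ENNReal.ofReal (2 * VV * Real.log ll) * volume B := by
  have hl := ll_gt
  have hl0 : 0 < ll := by linarith
  have hlog : 0 < Real.log ll := Real.log_pos hl
  have hVV := hKRN.1
  have hWf : ENNReal.ofReal VV * W B (Ioo S T) ≠ ∞ := by
    refine ENNReal.mul_ne_top ENNReal.ofReal_ne_top ?_
    have h1 : W B (Ioo S T) ≤ W B (Icc S T) := by
      unfold W
      refine lintegral_mono fun x => ?_
      gcongr
      exact Ioo_subset_Icc_self
    have h2 := W_le hVOL hHME B hB S T hS hST.le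
    refine ne_top_of_le_ne_top ?_ (h1.trans h2)
    exact ENNReal.mul_ne_top ENNReal.ofReal_ne_top hBf.ne
  have hmain : (∫⁻ x, (Ioo S T).indicator (fun _ => (1 : ℝ≥0∞)) x.2 *
      (ENNReal.ofReal (x.2 ^ 2) * en B x) ∂vol) + ENNReal.ofReal VV * W B (Ioo S T) ≤
      ENNReal.ofReal (2 * VV * Real.log ll) * volume B + ENNReal.ofReal VV * W B (Ioo S T) := by
    calc (∫⁻ x, (Ioo S T).indicator (fun _ => (1 : ℝ≥0∞)) x.2 *
        (ENNReal.ofReal (x.2 ^ 2) * en B x) ∂vol) + ENNReal.ofReal VV * W B (Ioo S T)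
        = ∫⁻ x, (Ioo S T).indicator (fun _ => (1 : ℝ≥0∞)) x.2 * ENNReal.ofReal (x.2 ^ 2) *
          (en B x + ENNReal.ofReal (VV * hv B x ^ 2)) ∂vol := by
          unfold W
          rw [← lintegral_const_mul _ (W_m hHME B hB _ measurableSet_Ioo),
            ← lintegral_add_left (E_m hCHI hHME B hB _ measurableSet_Ioo)]
          refine lintegral_congr fun x => ?_
          rw [ENNReal.ofReal_mul hVV.le]
          ring
      _ = ∫⁻ x, ∫⁻ y, (Ioo S T).indicator (fun _ => (1 : ℝ≥0∞)) x.2 * ENNReal.ofReal (x.2 ^ 2) *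
          ENNReal.ofReal (kk x y * hv B y ^ 2) ∂vol ∂vol := by
          refine lintegral_congr_ae (ae_up.mono fun x hx => ?_)
          simp only
          have m3 : Measurable (fun y : Pt => kk x y * hv B y ^ 2) :=
            Measurable.mul (kk_m1 hCHI x) (hv_m2 hHME B hB)
          rw [en_add hKRN hCHI hHME B hB x hx, lintegral_const_mul _ m3.ennreal_ofReal]
      _ = ∫⁻ y, ∫⁻ x, (Ioo S T).indicator (fun _ => (1 : ℝ≥0∞)) x.2 * ENNReal.ofReal (x.2 ^ 2) *
          ENNReal.ofReal (kk x y * hv B y ^ 2) ∂vol ∂vol := by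
          exact lintegral_lintegral_swap
            (sw_m hCHI hHME B hB _ measurableSet_Ioo).aemeasurable
      _ ≤ ∫⁻ y, ENNReal.ofReal VV * ((Icc (S / ll) (ll * T)).indicator
          (fun _ => (1 : ℝ≥0∞)) y.2 *
          (ENNReal.ofReal (y.2 ^ 2) * ENNReal.ofReal (hv B y ^ 2))) ∂vol :=
          lintegral_mono_ae (ae_up.mono fun y hy => inner_le hACT hCHI hALP B S T y hy)
      _ ≤ ∫⁻ y, ENNReal.ofReal VV * (((Ioo S T).indicator (fun _ => (1 : ℝ≥0∞)) y.2 *
            (ENNReal.ofReal (y.2 ^ 2) * ENNReal.ofReal (hv B y ^ 2))) +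
          (((Icc (S / ll) S).indicator (fun _ => (1 : ℝ≥0∞)) y.2 *
            (ENNReal.ofReal (y.2 ^ 2) * ENNReal.ofReal (hv B y ^ 2))) +
          ((Icc T (ll * T)).indicator (fun _ => (1 : ℝ≥0∞)) y.2 *
            (ENNReal.ofReal (y.2 ^ 2) * ENNReal.ofReal (hv B y ^ 2))))) ∂vol := by
          refine lintegral_mono fun y => ?_
          simp only
          rw [← add_mul, ← add_mul]
          gcongr
          exact ind_split S T ll y.2
      _ = ENNReal.ofReal VV * (W B (Ioo S T) + (W B (Icc (S / ll) S) + W B (Icc T (ll * T)))) := by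
          have m1 := W_m hHME B hB (Ioo S T) measurableSet_Ioo
          have m2 := W_m hHME B hB (Icc (S / ll) S) measurableSet_Icc
          have m3 := W_m hHME B hB (Icc T (ll * T)) measurableSet_Icc
          unfold W
          rw [lintegral_const_mul' _ _ ENNReal.ofReal_ne_top, lintegral_add_left m1,
            lintegral_add_left m2]
      _ ≤ ENNReal.ofReal VV * (W B (Ioo S T) + (ENNReal.ofReal (Real.log ll) * volume B +
            ENNReal.ofReal (Real.log ll) * volume B)) := by
          have w1 := W_le hVOL hHME B hB (S / ll) S (by positivity)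
            (div_le_self hS.le hl.le)
          have w2 := W_le hVOL hHME B hB T (ll * T) (hS.trans hST)
            (by nlinarith [hS.trans hST])
          have e1 : S / (S / ll) = ll := by field_simp
          have e2 : ll * T / T = ll := by
            have : 0 < T := hS.trans hST
            field_simp
          rw [e1] at w1
          rw [e2] at w2
          gcongr
      _ = _ := by
          have : 2 * VV * Real.log ll = VV * (Real.log ll + Real.log ll) := by ring
          rw [this, ENNReal.ofReal_mul hVV.le, ENNReal.ofReal_add hlog.le hlog.le]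
          ring
  exact (ENNReal.add_le_add_iff_right hWf).mp hmain

theorem hEN1 (hACT : StACT) (hCHI : StCHI) (hVOL : StVOL) (hKRN : StKRN) (hALP : StALP)
    (hHME : StHME) : StEN1 := by
  intro B hB hBf
  set F : ℕ → Pt → ℝ≥0∞ := fun n x =>
    (Ioo (1 / ((n : ℝ) + 2)) ((n : ℝ) + 2)).indicator (fun _ => (1 : ℝ≥0∞)) x.2 *
      (ENNReal.ofReal (x.2 ^ 2) * en B x) with hF
  have hem := en_meas hCHI hHME B hB
  have hFm : ∀ n, Measurable (F n) := fun n => E_m hCHI hHME B hB _ measurableSet_Ioo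
  have hmono : Monotone F := by
    intro m n hmn x
    simp only [hF]
    refine mul_le_mul_left (ind_mono _ _ ?_ _) _
    have hmn' : (m : ℝ) ≤ n := by exact_mod_cast hmn
    have hm0 : (0 : ℝ) ≤ m := Nat.cast_nonneg m
    refine Ioo_subset_Ioo ?_ (by linarith)
    exact one_div_le_one_div_of_le (by linarith) (by linarith)
  calc ∫⁻ x, ENNReal.ofReal (x.2 ^ 2) * en B x ∂vol
      ≤ ∫⁻ x, ⨆ n, F n x ∂vol := by
        refine lintegral_mono_ae (ae_up.mono fun x hx => ?_)
        have hx0 : 0 < x.2 := hx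
        obtain ⟨n, hn⟩ := exists_nat_gt (max x.2 (1 / x.2))
        have h1 : x.2 < n := lt_of_le_of_lt (le_max_left _ _) hn
        have h2 : 1 / x.2 < n := lt_of_le_of_lt (le_max_right _ _) hn
        have hmem : x.2 ∈ Ioo (1 / ((n : ℝ) + 2)) ((n : ℝ) + 2) := by
          constructor
          · rw [div_lt_iff₀ (by linarith)]
            rw [div_lt_iff₀ hx0] at h2
            nlinarith
          · linarith
        refine le_trans ?_ (le_iSup (fun n => F n x) n)
        simp only [hF]
        rw [indicator_of_mem hmem, one_mul]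
    _ = ⨆ n, ∫⁻ x, F n x ∂vol := lintegral_iSup hFm hmono
    _ ≤ _ := by
        refine iSup_le fun n => ?_
        have hn0 : (0 : ℝ) ≤ n := Nat.cast_nonneg n
        refine step hACT hCHI hVOL hKRN hALP hHME B hB hBf _ _ (by positivity) ?_
        rw [div_lt_iff₀ (by linarith)]
        nlinarith

end Pool.Agent.Helper78.QA
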