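import Pool.Agent.Helper86.QA.St3

/-!
# Project QD, part A, module MTX: averages of the matrix functions
-/

set_option autoImplicit false

open MeasureTheory Matrix Set Topology
open scoped ENNReal ComplexConjugate

namespace Pool.Agent.Helper78.QA

open Pool.Agent.Helper86.QA

private noncomputable def F1 (y : Pt) : ℂ := ((1 / y.2 : ℝ) : ℂ)

private noncomputable def F2 (y : Pt) : ℂ := y.1 / (y.2 : ℂ)

private noncomputable def F2c (y : Pt) : ℂ := conj y.1 / (y.2 : ℂ)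

private noncomputable def F3 (y : Pt) : ℂ := (((‖y.1‖ ^ 2 + y.2 ^ 2) / y.2 : ℝ) : ℂ)

private theorem mF1 : Measurable F1 := by
  unfold F1
  fun_prop

private theorem mF2 : Measurable F2 := by
  unfold F2
  have h : Measurable (fun y : Pt => (y.2 : ℂ)) := Complex.measurable_ofReal.comp measurable_snd
  exact measurable_fst.div h

private theorem mF2c : Measurable F2c := by
  unfold F2c
  have h : Measurable (fun y : Pt => (y.2 : ℂ)) := Complex.measurable_ofReal.comp measurable_snd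
  have h1 : Measurable (fun y : Pt => conj y.1) :=
    Complex.continuous_conj.measurable.comp measurable_fst
  exact h1.div h

private theorem mF3 : Measurable F3 := by
  unfold F3
  have h : Measurable (fun y : Pt => (‖y.1‖ ^ 2 + y.2 ^ 2) / y.2) := by fun_prop
  exact Complex.measurable_ofReal.comp h

private theorem kk_nn (x y : Pt) : 0 ≤ kk x y := by
  unfold kk
  split_ifs <;> norm_num

private theorem kk_m (hCHI : StCHI) (x : Pt) : Measurable (fun y : Pt => kk x y) := by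
  have h : Measurable (fun p : Pt × Pt => kk p.1 p.2) := hCHI.2.2.2.2.2
  exact h.comp (g := fun p : Pt × Pt => kk p.1 p.2) (f := fun y : Pt => (x, y))
    (measurable_const.prodMk measurable_id)

private theorem kk_of_not (x y : Pt) (h : ¬ ch x y ≤ 2) : kk x y = 0 := by
  unfold kk
  rw [if_neg h]

private theorem kk_inv (hCHI : StCHI) (g : SL) (x y : Pt) (hx : x ∈ up) (hy : y ∈ up) :
    kk (ga g x) (ga g y) = kk x y := (hCHI.2.1 g x hx y hy).2

attribute [local irreducible] kk ch ga cM VV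

private theorem mp_ga (hACT : StACT) (hVOL : StVOL) (g : SL) : MeasurePreserving (ga g) vol vol := by
  have hm : Measurable (ga g) := (hACT.2.2.2.1 g).1
  refine ⟨hm, ?_⟩
  ext s hs
  rw [Measure.map_apply hm hs]
  have h := hVOL.2.1 g (s.indicator (fun _ => (1 : ℝ≥0∞))) (measurable_const.indicator hs)
  have h1 : ∫⁻ x, s.indicator (fun _ => (1 : ℝ≥0∞)) x ∂vol = vol s := by
    rw [lintegral_indicator hs]
    simp
  have h2 : ∫⁻ x, s.indicator (fun _ => (1 : ℝ≥0∞)) (ga g x) ∂vol = vol (ga g ⁻¹' s) := by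
    have e : (fun x => s.indicator (fun _ => (1 : ℝ≥0∞)) (ga g x)) =
        (ga g ⁻¹' s).indicator (fun _ => (1 : ℝ≥0∞)) := by
      funext x
      by_cases hx : ga g x ∈ s
      · rw [indicator_of_mem hx, indicator_of_mem (show x ∈ ga g ⁻¹' s from hx)]
      · rw [indicator_of_notMem hx, indicator_of_notMem (show x ∉ ga g ⁻¹' s from hx)]
    rw [e, lintegral_indicator (hm hs)]
    simp
  rw [← h2, h, h1]

private theorem transfer (hACT : StACT) (hCHI : StCHI) (hVOL : StVOL) (g : SL) (x : Pt)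
    (hx : x ∈ up) (f : Pt → ℂ) (hf : Measurable f) :
    (Integrable (fun y => (kk (ga g x) y : ℂ) * f y) vol ↔
      Integrable (fun y => (kk x y : ℂ) * f (ga g y)) vol) ∧
    ∫ y, (kk (ga g x) y : ℂ) * f y ∂vol = ∫ y, (kk x y : ℂ) * f (ga g y) ∂vol := by
  have hmp := mp_ga hACT hVOL g
  have hk : Measurable (fun y : Pt => (kk (ga g x) y : ℂ)) :=
    Complex.measurable_ofReal.comp (kk_m hCHI (ga g x))
  have hm : Measurable (fun y : Pt => (kk (ga g x) y : ℂ) * f y) := Measurable.mul hk hf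
  have hae : (fun y : Pt => (kk (ga g x) (ga g y) : ℂ) * f (ga g y)) =ᵐ[vol]
      (fun y => (kk x y : ℂ) * f (ga g y)) := by
    filter_upwards [ae_up] with y hy
    rw [kk_inv hCHI g x y hx hy]
  constructor
  · have h1 := hmp.integrable_comp (g := fun y : Pt => (kk (ga g x) y : ℂ) * f y)
      hm.aestronglyMeasurable
    rw [← h1]
    exact integrable_congr hae
  · have h2 : ∫ y, (kk (ga g x) y : ℂ) * f y ∂(Measure.map (ga g) vol) =
        ∫ y, (kk (ga g x) (ga g y) : ℂ) * f (ga g y) ∂vol :=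
      integral_map hmp.measurable.aemeasurable hm.aestronglyMeasurable
    rw [hmp.map_eq] at h2
    rw [h2]
    exact integral_congr_ae hae

private theorem oo_up : oo ∈ up := by
  change (0 : ℝ) < 1
  exact one_pos

private theorem ll_pos : 1 < ll := by
  unfold ll
  have : 0 < Real.sqrt 3 := Real.sqrt_pos.mpr (by norm_num)
  linarith

private theorem sup (hCHI : StCHI) (y : Pt) (hy : y ∈ up) (h : ch oo y ≤ 2) :
    y.2 ≤ ll ∧ 1 / y.2 ≤ ll ∧ ‖y.1‖ ^ 2 ≤ 2 * ll := by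
  obtain ⟨h1, h2, h3⟩ := hCHI.2.2.2.1 oo oo_up y hy h
  have hy0 : 0 < y.2 := hy
  have e1 : oo.1 = (0 : ℂ) := rfl
  have e2 : oo.2 = (1 : ℝ) := rfl
  rw [e2, mul_one] at h1
  rw [e2] at h2
  rw [e1, e2, zero_sub, norm_neg] at h3
  refine ⟨h1, ?_, by linarith⟩
  rw [div_le_iff₀ hy0]
  exact h2

private theorem bdd_int (hCHI : StCHI) (hKRN : StKRN) (f : Pt → ℂ) (hf : Measurable f) (C : ℝ)
    (h : ∀ y ∈ up, ch oo y ≤ 2 → ‖f y‖ ≤ C) : Integrable (fun y => (kk oo y : ℂ) * f y) vol := by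
  have hk := (hKRN.2.2 oo oo_up).1
  have hkm : Measurable (fun y : Pt => (kk oo y : ℂ)) :=
    Complex.measurable_ofReal.comp (kk_m hCHI oo)
  have hm : Measurable (fun y : Pt => (kk oo y : ℂ) * f y) := Measurable.mul hkm hf
  refine Integrable.mono' (hk.const_mul C) hm.aestronglyMeasurable ?_
  filter_upwards [ae_up] with y hy
  rw [norm_mul, Complex.norm_real, Real.norm_eq_abs, abs_of_nonneg (kk_nn oo y), mul_comm]
  by_cases hc : ch oo y ≤ 2
  · exact mul_le_mul_of_nonneg_right (h y hy hc) (kk_nn oo y)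
  · rw [kk_of_not oo y hc]
    simp

private theorem den_gJ (y : Pt) : den gJ y = ‖y.1‖ ^ 2 + y.2 ^ 2 := by
  unfold den
  have e10 : gJ 1 0 = 1 := rfl
  have e11 : gJ 1 1 = 0 := rfl
  rw [e10, e11]
  simp

private theorem ga_gJ2 (y : Pt) : (ga gJ y).2 = y.2 / (‖y.1‖ ^ 2 + y.2 ^ 2) := by
  unfold ga
  simp only
  rw [den_gJ]

private theorem ga_gJo : ga gJ oo = oo := by
  have h2 : (ga gJ oo).2 = 1 := by
    rw [ga_gJ2]
    have e1 : oo.1 = (0 : ℂ) := rfl
    have e2 : oo.2 = (1 : ℝ) := rfl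
    rw [e1, e2]
    simp
  have h1 : (ga gJ oo).1 = 0 := by
    unfold ga
    simp only
    have e00 : gJ 0 0 = 0 := rfl
    have e01 : gJ 0 1 = -1 := rfl
    have e10 : gJ 1 0 = 1 := rfl
    have e11 : gJ 1 1 = 0 := rfl
    have e1 : oo.1 = (0 : ℂ) := rfl
    rw [e00, e01, e10, e11, e1]
    simp
  exact Prod.ext h1 h2

/-- the rotation by the angle `π` -/
private noncomputable def gR : SL := ⟨!![Complex.I, 0; 0, -Complex.I], by
  simp [Matrix.det_fin_two]⟩

private theorem ga_gR (y : Pt) : ga gR y = (-y.1, y.2) := by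
  have e00 : gR 0 0 = Complex.I := rfl
  have e01 : gR 0 1 = 0 := rfl
  have e10 : gR 1 0 = 0 := rfl
  have e11 : gR 1 1 = -Complex.I := rfl
  have hd : den gR y = 1 := by
    unfold den
    rw [e10, e11]
    simp
  unfold ga
  rw [hd, e00, e01, e10, e11]
  refine Prod.ext ?_ ?_
  · simp only [zero_mul, zero_add, map_neg, Complex.conj_I, neg_neg, map_zero, mul_zero,
      add_zero]
    push_cast
    linear_combination y.1 * Complex.I_mul_I
  · simp

private theorem ga_gRo : ga gR oo = oo := by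
  rw [ga_gR]
  have e1 : oo.1 = (0 : ℂ) := rfl
  refine Prod.ext ?_ rfl
  simp only
  rw [e1, neg_zero]

private theorem ooF1 (hCHI : StCHI) (hKRN : StKRN) :
    Integrable (fun y => (kk oo y : ℂ) * F1 y) vol ∧
    ∫ y, (kk oo y : ℂ) * F1 y ∂vol = (cM : ℂ) := by
  constructor
  · refine bdd_int hCHI hKRN F1 mF1 ll ?_
    intro y hy hc
    obtain ⟨-, h2, -⟩ := sup hCHI y hy hc
    have hy0 : 0 < y.2 := hy
    unfold F1
    rw [Complex.norm_real, Real.norm_eq_abs, abs_of_pos (by positivity)]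
    exact h2
  · unfold cM
    rw [← integral_complex_ofReal]
    congr 1
    funext y
    unfold F1
    push_cast
    rw [mul_one_div]

private theorem ooF2 (hACT : StACT) (hCHI : StCHI) (hVOL : StVOL) (hKRN : StKRN) (f : Pt → ℂ)
    (hf : Measurable f) (hb : ∀ y : Pt, ‖f y‖ = ‖y.1‖ * |1 / y.2|)
    (hs : ∀ y : Pt, f (-y.1, y.2) = - f y) :
    Integrable (fun y => (kk oo y : ℂ) * f y) vol ∧
    ∫ y, (kk oo y : ℂ) * f y ∂vol = 0 := by
  have hl := ll_pos
  constructor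
  · refine bdd_int hCHI hKRN f hf (2 * ll * ll) ?_
    intro y hy hc
    obtain ⟨-, h2, h3⟩ := sup hCHI y hy hc
    have hy0 : 0 < y.2 := hy
    rw [hb, abs_of_pos (by positivity)]
    have hn : ‖y.1‖ ≤ 2 * ll := by
      by_contra hcon
      rw [not_le] at hcon
      nlinarith
    exact mul_le_mul hn h2 (by positivity) (by linarith)
  · obtain ⟨-, h⟩ := transfer hACT hCHI hVOL gR oo oo_up f hf
    rw [ga_gRo] at h
    have e : ∀ y : Pt, (kk oo y : ℂ) * f (ga gR y) = -((kk oo y : ℂ) * f y) := by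
      intro y
      rw [ga_gR, hs, mul_neg]
    simp only [e] at h
    rw [integral_neg] at h
    have h2 : (2 : ℂ) * ∫ y, (kk oo y : ℂ) * f y ∂vol = 0 := by linear_combination h
    rcases mul_eq_zero.mp h2 with h3 | h3
    · norm_num at h3
    · exact h3

private theorem ooF3 (hACT : StACT) (hCHI : StCHI) (hVOL : StVOL) (hKRN : StKRN) :
    Integrable (fun y => (kk oo y : ℂ) * F3 y) vol ∧
    ∫ y, (kk oo y : ℂ) * F3 y ∂vol = (cM : ℂ) := by
  obtain ⟨h1, h2⟩ := transfer hACT hCHI hVOL gJ oo oo_up F1 mF1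
  obtain ⟨i1, i2⟩ := ooF1 hCHI hKRN
  rw [ga_gJo] at h1 h2
  have e : ∀ y : Pt, (kk oo y : ℂ) * F1 (ga gJ y) = (kk oo y : ℂ) * F3 y := by
    intro y
    congr 1
    unfold F1 F3
    rw [ga_gJ2, one_div_div]
  simp only [e] at h1 h2
  exact ⟨h1.mp i1, by rw [← h2, i2]⟩

private theorem mvx (hACT : StACT) (x : Pt) (hx : x ∈ up) (y : Pt) :
    ga (gx x hx) y = (x.1 + (x.2 : ℂ) * y.1, x.2 * y.2) := hACT.2.2.2.2.1 x hx y

private theorem mvo (hACT : StACT) (x : Pt) (hx : x ∈ up) : ga (gx x hx) oo = x := by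
  rw [mvx hACT x hx]
  have e1 : oo.1 = (0 : ℂ) := rfl
  have e2 : oo.2 = (1 : ℝ) := rfl
  rw [e1, e2]
  simp

/-- the average over the ball around `x`, when `f` transforms into a combination of functions with
known averages at the base point -/
private theorem gen (hACT : StACT) (hCHI : StCHI) (hVOL : StVOL) (x : Pt) (hx : x ∈ up)
    (f : Pt → ℂ) (hf : Measurable f) (g1 g2 : Pt → ℂ) (c1 c2 s1 s2 : ℂ)
    (hg1 : Integrable (fun y => (kk oo y : ℂ) * g1 y) vol ∧
      ∫ y, (kk oo y : ℂ) * g1 y ∂vol = s1)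
    (hg2 : Integrable (fun y => (kk oo y : ℂ) * g2 y) vol ∧
      ∫ y, (kk oo y : ℂ) * g2 y ∂vol = s2)
    (he : ∀ y ∈ up, f (x.1 + (x.2 : ℂ) * y.1, x.2 * y.2) = c1 * g1 y + c2 * g2 y) :
    Integrable (fun y => (kk x y : ℂ) * f y) vol ∧
      ∫ y, (kk x y : ℂ) * f y ∂vol = c1 * s1 + c2 * s2 := by
  obtain ⟨h1, h2⟩ := transfer hACT hCHI hVOL (gx x hx) oo oo_up f hf
  rw [mvo hACT x hx] at h1 h2
  have hae : (fun y => (kk oo y : ℂ) * f (ga (gx x hx) y)) =ᵐ[vol]
      (fun y => c1 * ((kk oo y : ℂ) * g1 y) + c2 * ((kk oo y : ℂ) * g2 y)) := by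
    filter_upwards [ae_up] with y hy
    rw [mvx hACT x hx, he y hy]
    ring
  have j1 : Integrable (fun y => c1 * ((kk oo y : ℂ) * g1 y)) vol := hg1.1.const_mul c1
  have j2 : Integrable (fun y => c2 * ((kk oo y : ℂ) * g2 y)) vol := hg2.1.const_mul c2
  constructor
  · rw [h1, integrable_congr hae]
    exact Integrable.add j1 j2
  · rw [h2, integral_congr_ae hae, integral_add j1 j2, integral_const_mul, integral_const_mul,
      hg1.2, hg2.2]

private theorem nsq (z : ℂ) : ((‖z‖ ^ 2 : ℝ) : ℂ) = z * conj z := by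
  rw [Complex.mul_conj, Complex.normSq_eq_norm_sq]

theorem hMTX (hACT : StACT) (hCHI : StCHI) (hVOL : StVOL) (hKRN : StKRN) (hDLF : StDLF) :
    StMTX := by
  have hl := ll_pos
  have o1 := ooF1 hCHI hKRN
  have o3 := ooF3 hACT hCHI hVOL hKRN
  have hbF2 : ∀ y : Pt, ‖F2 y‖ = ‖y.1‖ * |1 / y.2| := by
    intro y
    unfold F2
    rw [norm_div, Complex.norm_real, Real.norm_eq_abs, abs_div, abs_one]
    ring
  have hbF2c : ∀ y : Pt, ‖F2c y‖ = ‖y.1‖ * |1 / y.2| := by
    intro y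
    unfold F2c
    rw [norm_div, Complex.norm_real, Real.norm_eq_abs, abs_div, abs_one, Complex.norm_conj]
    ring
  have o2 := ooF2 hACT hCHI hVOL hKRN F2 mF2 hbF2 (by
    intro y
    unfold F2
    simp only
    rw [neg_div])
  have o2c := ooF2 hACT hCHI hVOL hKRN F2c mF2c hbF2c (by
    intro y
    unfold F2c
    simp only
    rw [map_neg, neg_div])
  -- real version
  have hcM : 0 < cM := by
    have hV := hKRN.1
    obtain ⟨k1, k2⟩ := hKRN.2.2 oo oo_up
    have hint : Integrable (fun y : Pt => kk oo y / y.2) vol := by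
      have h := o1.1.re
      refine h.congr (Filter.Eventually.of_forall fun y => ?_)
      simp only [F1]
      have : (kk oo y : ℂ) * ((1 / y.2 : ℝ) : ℂ) = ((kk oo y / y.2 : ℝ) : ℂ) := by
        push_cast
        ring
      rw [this]
      rfl
    have hle : ∫ y, kk oo y * (1 / ll) ∂vol ≤ ∫ y, kk oo y / y.2 ∂vol := by
      refine integral_mono_ae (k1.mul_const _) hint ?_
      filter_upwards [ae_up] with y hy
      have hy0 : 0 < y.2 := hy
      by_cases hc : ch oo y ≤ 2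
      · obtain ⟨h1, -, -⟩ := sup hCHI y hy hc
        rw [div_eq_mul_one_div (kk oo y) y.2]
        refine mul_le_mul_of_nonneg_left ?_ (kk_nn oo y)
        exact one_div_le_one_div_of_le hy0 h1
      · rw [kk_of_not oo y hc]
        simp
    rw [integral_mul_const, k2] at hle
    unfold cM
    have : 0 < VV * (1 / ll) := by positivity
    linarith
  refine ⟨hcM, ?_⟩
  intro x hx
  have hx0 : 0 < x.2 := hx
  have hxc : (x.2 : ℂ) ≠ 0 := by exact_mod_cast hx0.ne'
  -- the four functions at `x`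
  have g1 := gen hACT hCHI hVOL x hx F1 mF1 F1 F1 (F1 x) 0 _ _ o1 o1 (by
    intro y hy
    have hy0 : 0 < y.2 := hy
    have hyc : (y.2 : ℂ) ≠ 0 := by exact_mod_cast hy0.ne'
    unfold F1
    push_cast
    field_simp
    ring)
  have g2 := gen hACT hCHI hVOL x hx F2 mF2 F1 F2 (F2 x) 1 _ _ o1 o2 (by
    intro y hy
    have hy0 : 0 < y.2 := hy
    have hyc : (y.2 : ℂ) ≠ 0 := by exact_mod_cast hy0.ne'
    unfold F1 F2
    push_cast
    field_simp)
  have g2c := gen hACT hCHI hVOL x hx F2c mF2c F1 F2c (F2c x) 1 _ _ o1 o2c (by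
    intro y hy
    have hy0 : 0 < y.2 := hy
    have hyc : (y.2 : ℂ) ≠ 0 := by exact_mod_cast hy0.ne'
    unfold F1 F2c
    simp only [map_add, map_mul, Complex.conj_ofReal]
    push_cast
    field_simp)
  -- the mixed part of the third function
  have o4 : Integrable (fun y => (kk oo y : ℂ) * (x.1 * F2c y + conj x.1 * F2 y)) vol ∧
      ∫ y, (kk oo y : ℂ) * (x.1 * F2c y + conj x.1 * F2 y) ∂vol = 0 := by
    have e : (fun y => (kk oo y : ℂ) * (x.1 * F2c y + conj x.1 * F2 y)) =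
        (fun y => x.1 * ((kk oo y : ℂ) * F2c y) + conj x.1 * ((kk oo y : ℂ) * F2 y)) := by
      funext y
      ring
    have j1 : Integrable (fun y => x.1 * ((kk oo y : ℂ) * F2c y)) vol := o2c.1.const_mul _
    have j2 : Integrable (fun y => conj x.1 * ((kk oo y : ℂ) * F2 y)) vol := o2.1.const_mul _
    rw [e]
    refine ⟨Integrable.add j1 j2, ?_⟩
    rw [integral_add j1 j2, integral_const_mul, integral_const_mul, o2c.2, o2.2]
    simp
  have o5 : Integrable (fun y => (kk oo y : ℂ) *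
      ((((‖x.1‖ ^ 2 / x.2 : ℝ)) : ℂ) * F1 y + (x.2 : ℂ) * F3 y)) vol ∧
      ∫ y, (kk oo y : ℂ) * ((((‖x.1‖ ^ 2 / x.2 : ℝ)) : ℂ) * F1 y + (x.2 : ℂ) * F3 y) ∂vol =
        (cM : ℂ) * F3 x := by
    have e : (fun y => (kk oo y : ℂ) *
        ((((‖x.1‖ ^ 2 / x.2 : ℝ)) : ℂ) * F1 y + (x.2 : ℂ) * F3 y)) =
        (fun y => (((‖x.1‖ ^ 2 / x.2 : ℝ)) : ℂ) * ((kk oo y : ℂ) * F1 y) +
          (x.2 : ℂ) * ((kk oo y : ℂ) * F3 y)) := by
      funext y
      ring
    have j1 : Integrable (fun y => (((‖x.1‖ ^ 2 / x.2 : ℝ)) : ℂ) * ((kk oo y : ℂ) * F1 y)) vol :=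
      o1.1.const_mul _
    have j2 : Integrable (fun y => (x.2 : ℂ) * ((kk oo y : ℂ) * F3 y)) vol := o3.1.const_mul _
    rw [e]
    refine ⟨Integrable.add j1 j2, ?_⟩
    rw [integral_add j1 j2, integral_const_mul, integral_const_mul, o1.2, o3.2]
    unfold F3
    push_cast
    field_simp
  have g3 := gen hACT hCHI hVOL x hx F3 mF3 _ _ 1 1 _ _ o5 o4 (by
    intro y hy
    have hy0 : 0 < y.2 := hy
    have hyc : (y.2 : ℂ) ≠ 0 := by exact_mod_cast hy0.ne'
    unfold F1 F2 F2c F3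
    simp only
    have n1 := nsq (x.1 + (x.2 : ℂ) * y.1)
    have n2 := nsq x.1
    have n3 := nsq y.1
    push_cast at n1 n2 n3 ⊢
    rw [n1, n2, n3, map_add, map_mul, Complex.conj_ofReal]
    field_simp
    ring)
  have hX : ∀ y : Pt, Xm y 0 0 = F3 y ∧ Xm y 0 1 = F2 y ∧ Xm y 1 0 = F2c y ∧ Xm y 1 1 = F1 y :=
    fun y => ⟨rfl, rfl, rfl, rfl⟩
  have hXi : ∀ y : Pt, (Xm y)⁻¹ 0 0 = F1 y ∧ (Xm y)⁻¹ 0 1 = -F2 y ∧ (Xm y)⁻¹ 1 0 = -F2c y ∧
      (Xm y)⁻¹ 1 1 = F3 y := by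
    intro y
    rw [hDLF.1 y]
    exact ⟨rfl, rfl, rfl, rfl⟩
  have neg : ∀ (f : Pt → ℂ) (s : ℂ), (Integrable (fun y => (kk x y : ℂ) * f y) vol ∧
      ∫ y, (kk x y : ℂ) * f y ∂vol = s) → (Integrable (fun y => (kk x y : ℂ) * (-f y)) vol ∧
      ∫ y, (kk x y : ℂ) * (-f y) ∂vol = -s) := by
    intro f s h
    have e : (fun y => (kk x y : ℂ) * (-f y)) = fun y => -((kk x y : ℂ) * f y) := by
      funext y
      ring
    rw [e]
    refine ⟨h.1.neg, ?_⟩
    rw [integral_neg, h.2]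
  have G1 : Integrable (fun y => (kk x y : ℂ) * F1 y) vol ∧
      ∫ y, (kk x y : ℂ) * F1 y ∂vol = (cM : ℂ) * F1 x := ⟨g1.1, by rw [g1.2]; ring⟩
  have G2 : Integrable (fun y => (kk x y : ℂ) * F2 y) vol ∧
      ∫ y, (kk x y : ℂ) * F2 y ∂vol = (cM : ℂ) * F2 x := ⟨g2.1, by rw [g2.2]; ring⟩
  have G2c : Integrable (fun y => (kk x y : ℂ) * F2c y) vol ∧
      ∫ y, (kk x y : ℂ) * F2c y ∂vol = (cM : ℂ) * F2c x := ⟨g2c.1, by rw [g2c.2]; ring⟩
  have G3 : Integrable (fun y => (kk x y : ℂ) * F3 y) vol ∧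
      ∫ y, (kk x y : ℂ) * F3 y ∂vol = (cM : ℂ) * F3 x := ⟨g3.1, by rw [g3.2]; ring⟩
  have N2 := neg F2 _ G2
  have N2c := neg F2c _ G2c
  have N2' : Integrable (fun y => (kk x y : ℂ) * (-F2 y)) vol ∧
      ∫ y, (kk x y : ℂ) * (-F2 y) ∂vol = (cM : ℂ) * (-F2 x) := ⟨N2.1, by rw [N2.2]; ring⟩
  have N2c' : Integrable (fun y => (kk x y : ℂ) * (-F2c y)) vol ∧
      ∫ y, (kk x y : ℂ) * (-F2c y) ∂vol = (cM : ℂ) * (-F2c x) := ⟨N2c.1, by rw [N2c.2]; ring⟩
  intro i j
  fin_cases i <;> fin_cases j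
  · simp only [Fin.zero_eta, Fin.isValue, (hX _).1, (hXi _).1]
    exact ⟨G3.1, G3.2, G1.1, G1.2⟩
  · simp only [Fin.zero_eta, Fin.mk_one, Fin.isValue, (hX _).2.1, (hXi _).2.1]
    exact ⟨G2.1, G2.2, N2'.1, N2'.2⟩
  · simp only [Fin.zero_eta, Fin.mk_one, Fin.isValue, (hX _).2.2.1, (hXi _).2.2.1]
    exact ⟨G2c.1, G2c.2, N2c'.1, N2c'.2⟩
  · simp only [Fin.mk_one, Fin.isValue, (hX _).2.2.2, (hXi _).2.2.2]
    exact ⟨G1.1, G1.2, G3.1, G3.2⟩

end Pool.Agent.Helper78.QA
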